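import Mathlib

set_option autoImplicit false

/-!
# Growth of a three-term recursion when the products of consecutive coefficients are large
-/

namespace Pool.Agent.Run7.h425.SM

open Real

/-- one step: the quotient of consecutive terms -/
theorem rec_step {g d : ℕ → ℝ} (h0 : d 0 = 0) (h1 : d 1 = 1)
    (hd : ∀ k, d (k + 2) = g (k + 1) * d (k + 1) - d k) {K : ℝ} (hK : 4 ≤ K) {n : ℕ}
    (hg1 : g 1 ≠ 0) (hg : ∀ j, 1 ≤ j → j < n → K ≤ |g j * g (j + 1)|) :
    ∀ k, 1 ≤ k → k ≤ n → d k ≠ 0 ∧ g k ≠ 0 ∧ |d (k + 1) - g k * d k| ≤ 2 / K * |g k * d k| := by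
  intro k
  induction k with
  | zero => intro h; omega
  | succ k ih =>
    intro _ hkn
    rcases Nat.eq_zero_or_pos k with hk | hk
    · subst hk
      have e : d 2 = g 1 * d 1 - d 0 := hd 0
      rw [h1, h0] at e
      have e2 : d (0 + 1 + 1) - g (0 + 1) * d (0 + 1) = 0 := by
        show d 2 - g 1 * d 1 = 0
        rw [e, h1]
        ring
      refine ⟨by rw [zero_add, h1]; exact one_ne_zero, by simpa using hg1, ?_⟩
      rw [e2, abs_zero]
      positivity
    · obtain ⟨a1, a2, a3⟩ := ih hk (by omega)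
      have hp := hg k hk (by omega)
      have hK0 : 0 < K := by linarith
      have hgk : g (k + 1) ≠ 0 := by
        intro h
        rw [h, mul_zero, abs_zero] at hp
        linarith
      have hx : 0 < |g k * d k| := abs_pos.2 (mul_ne_zero a2 a1)
      have h2K : 2 / K ≤ 1 / 2 := by
        rw [div_le_div_iff₀ hK0 (by norm_num)]
        linarith
      -- `|d (k + 1)| ≥ |g k d k| / 2`
      have h3 : |g k * d k| / 2 ≤ |d (k + 1)| := by
        have h4 : |g k * d k| - |d (k + 1)| ≤ |d (k + 1) - g k * d k| := by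
          have := abs_sub_abs_le_abs_sub (g k * d k) (d (k + 1))
          rwa [abs_sub_comm] at this
        have h5 : 2 / K * |g k * d k| ≤ 1 / 2 * |g k * d k| :=
          mul_le_mul_of_nonneg_right h2K hx.le
        linarith
      have hdk : d (k + 1) ≠ 0 := by
        intro h
        rw [h, abs_zero] at h3
        linarith
      refine ⟨hdk, hgk, ?_⟩
      have e : d (k + 1 + 1) - g (k + 1) * d (k + 1) = -d k := by
        have := hd k
        rw [show k + 1 + 1 = k + 2 from rfl, this]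
        ring
      rw [e, abs_neg, abs_mul (g (k + 1))]
      -- `K |d k| ≤ |g k g (k+1)| |d k| ≤ 2 |g (k+1)| |d (k+1)|`
      have h6 : K * |d k| ≤ 2 * (|g (k + 1)| * |d (k + 1)|) := by
        have h7 : |g k * g (k + 1)| * |d k| = |g (k + 1)| * |g k * d k| := by
          rw [abs_mul, abs_mul]
          ring
        calc K * |d k| ≤ |g k * g (k + 1)| * |d k| :=
              mul_le_mul_of_nonneg_right hp (abs_nonneg _)
          _ = |g (k + 1)| * |g k * d k| := h7
          _ ≤ |g (k + 1)| * (2 * |d (k + 1)|) :=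
              mul_le_mul_of_nonneg_left (by linarith) (abs_nonneg _)
          _ = _ := by ring
      rw [div_mul_eq_mul_div, le_div_iff₀ hK0]
      linarith

/-- growth over two steps -/
theorem rec_two {g d : ℕ → ℝ} (h0 : d 0 = 0) (h1 : d 1 = 1)
    (hd : ∀ k, d (k + 2) = g (k + 1) * d (k + 1) - d k) {K : ℝ} (hK : 4 ≤ K) {n : ℕ}
    (hg1 : g 1 ≠ 0) (hg : ∀ j, 1 ≤ j → j < n → K ≤ |g j * g (j + 1)|) {k : ℕ} (hk : 1 ≤ k)
    (hkn : k < n) : K / 4 * |d k| ≤ |d (k + 2)| := by
  have hK0 : 0 < K := by linarith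
  have h2K : 2 / K ≤ 1 / 2 := by
    rw [div_le_div_iff₀ hK0 (by norm_num)]
    linarith
  have key : ∀ j, 1 ≤ j → j ≤ n → |g j * d j| / 2 ≤ |d (j + 1)| := by
    intro j hj hjn
    have a3 := (rec_step h0 h1 hd hK hg1 hg j hj hjn).2.2
    have h4 : |g j * d j| - |d (j + 1)| ≤ |d (j + 1) - g j * d j| := by
      have := abs_sub_abs_le_abs_sub (g j * d j) (d (j + 1))
      rwa [abs_sub_comm] at this
    have h5 : 2 / K * |g j * d j| ≤ 1 / 2 * |g j * d j| :=
      mul_le_mul_of_nonneg_right h2K (abs_nonneg _)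
    linarith
  have k1 := key k hk hkn.le
  have k2 := key (k + 1) (by omega) (by omega)
  have hp := hg k hk hkn
  rw [abs_mul] at k1 k2 hp
  have e : d (k + 1 + 1) = d (k + 2) := rfl
  rw [e] at k2
  have hA := abs_nonneg (g (k + 1))
  have hB := abs_nonneg (d k)
  calc K / 4 * |d k| ≤ (|g k| * |g (k + 1)|) / 4 * |d k| := by
        apply mul_le_mul_of_nonneg_right _ hB
        linarith
    _ = |g (k + 1)| * (|g k| * |d k| / 2) / 2 := by ring
    _ ≤ |g (k + 1)| * |d (k + 1)| / 2 := by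
        apply div_le_div_of_nonneg_right _ (by norm_num)
        exact mul_le_mul_of_nonneg_left k1 hA
    _ ≤ |d (k + 2)| := k2

/-- exponential growth -/
theorem rec_growth {g d : ℕ → ℝ} (h0 : d 0 = 0) (h1 : d 1 = 1)
    (hd : ∀ k, d (k + 2) = g (k + 1) * d (k + 1) - d k) {K : ℝ} (hK : 4 ≤ K) {n : ℕ}
    (hg1 : g 1 ≠ 0) (hg : ∀ j, 1 ≤ j → j < n → K ≤ |g j * g (j + 1)|) (i : ℕ)
    (hi : 2 * i ≤ n) : (K / 4) ^ i ≤ |d (2 * i + 1)| := by
  induction i with
  | zero => simp [h1]
  | succ i ih =>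
    have h2 := ih (by omega)
    have h3 := rec_two h0 h1 hd hK hg1 hg (k := 2 * i + 1) (by omega) (by omega)
    have hK4 : 0 ≤ K / 4 := by linarith
    calc (K / 4) ^ (i + 1) = K / 4 * (K / 4) ^ i := by ring
      _ ≤ K / 4 * |d (2 * i + 1)| := mul_le_mul_of_nonneg_left h2 hK4
      _ ≤ |d (2 * i + 1 + 2)| := h3
      _ = |d (2 * (i + 1) + 1)| := by congr 2

/-- the logarithm -/
theorem log_near_one {u e : ℝ} (he : e ≤ 1 / 2) (hu : |u - 1| ≤ e) : |log (abs u)| ≤ 2 * e := by
  have h1 := abs_le.1 hu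
  have he0 : 0 ≤ e := (abs_nonneg _).trans hu
  have hu0 : 0 < u := by linarith
  rw [abs_of_pos hu0, abs_le]
  have h2 := Real.log_le_sub_one_of_pos hu0
  have h3 := Real.log_le_sub_one_of_pos (inv_pos.2 hu0)
  rw [Real.log_inv] at h3
  constructor
  · have h4 : u⁻¹ - 1 ≤ 2 * e := by
      have h5 : u⁻¹ - 1 = (1 - u) / u := by field_simp
      rw [h5, div_le_iff₀ hu0]
      nlinarith
    linarith
  · linarith

theorem rec_log {g d : ℕ → ℝ} (h0 : d 0 = 0) (h1 : d 1 = 1)
    (hd : ∀ k, d (k + 2) = g (k + 1) * d (k + 1) - d k) {K : ℝ} (hK : 4 ≤ K) {n : ℕ}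
    (hg1 : g 1 ≠ 0) (hg : ∀ j, 1 ≤ j → j < n → K ≤ |g j * g (j + 1)|) (m : ℕ) (hm : m ≤ n) :
    |log |d (m + 1)| - (∑ k ∈ Finset.range m, log |g (k + 1)|)| ≤ 4 / K * m := by
  have hK0 : 0 < K := by linarith
  have h2K : 2 / K ≤ 1 / 2 := by
    rw [div_le_div_iff₀ hK0 (by norm_num)]
    linarith
  induction m with
  | zero => simp [h1]
  | succ m ih =>
    have h2 := ih (by omega)
    obtain ⟨a1, a2, a3⟩ := rec_step h0 h1 hd hK hg1 hg (m + 1) (by omega) hm
    have hx : g (m + 1) * d (m + 1) ≠ 0 := mul_ne_zero a2 a1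
    have hx0 : 0 < |g (m + 1) * d (m + 1)| := abs_pos.2 hx
    set u := d (m + 1 + 1) / (g (m + 1) * d (m + 1)) with hu
    have hu1 : |u - 1| ≤ 2 / K := by
      have e : u - 1 = (d (m + 1 + 1) - g (m + 1) * d (m + 1)) / (g (m + 1) * d (m + 1)) := by
        rw [hu, sub_div, div_self hx]
      rw [e, abs_div, div_le_iff₀ hx0]
      exact a3
    have h3 := log_near_one h2K hu1
    have hd2 : d (m + 1 + 1) = u * (g (m + 1) * d (m + 1)) := by
      rw [hu, div_mul_cancel₀ _ hx]
    have hu0 : u ≠ 0 := by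
      intro h
      rw [h] at hu1
      norm_num at hu1
      linarith
    have e : log |d (m + 1 + 1)| = log |u| + (log |g (m + 1)| + log |d (m + 1)|) := by
      rw [hd2, abs_mul, abs_mul, Real.log_mul (abs_ne_zero.2 hu0)
        (mul_ne_zero (abs_ne_zero.2 a2) (abs_ne_zero.2 a1)),
        Real.log_mul (abs_ne_zero.2 a2) (abs_ne_zero.2 a1)]
    rw [Finset.sum_range_succ, e]
    have e2 : log |u| + (log |g (m + 1)| + log |d (m + 1)|) -
        (∑ k ∈ Finset.range m, log |g (k + 1)| + log |g (m + 1)|) =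
        log |u| + (log |d (m + 1)| - ∑ k ∈ Finset.range m, log |g (k + 1)|) := by ring
    rw [e2]
    refine (abs_add_le _ _).trans ?_
    have e3 : 4 / K * ((m + 1 : ℕ) : ℝ) = 2 * (2 / K) + 4 / K * m := by
      push_cast
      ring
    rw [e3]
    linarith

end Pool.Agent.Run7.h425.SM
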