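import Pool.Agent.V1152.SMIJ

set_option autoImplicit false

/-!
# The area of the region where the product of the two slopes is small
-/

namespace Pool.Agent.Run7.h425.SM

open Real MeasureTheory Function Pool.Agent.TH705.SM
open Pool.Agent.V1152.SMI (cc cc_coe cc_cont cc_le Lper)

/-- two points of the strip in `[0, 1/2]` are close -/
theorem strip_close {a t : ℝ} (ha : 1 ≤ |a|) (ht : t ≤ 2 * π * |a| / 3) {x y : ℝ} (hx : 0 ≤ x)
    (hxy : x ≤ y) (hy : y ≤ 1 / 2) (h1 : |L a x| < t) (h2 : |L a y| < t) :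
    y - x ≤ t / (14 / 5 * π * |a|) := by
  have hpi := pi_pos
  have hpi3 := pi_gt_three
  have ha0 : 0 < |a| := by linarith
  have hdiff : L a x - L a y = 2 * π * a * (cos (2 * π * x) - cos (2 * π * y)) := by
    unfold L
    ring
  have hcs : cos (2 * π * x) - cos (2 * π * y) =
      2 * (sin (π * (x + y)) * sin (π * (y - x))) := by
    rw [Real.cos_sub_cos]
    have e1 : (2 * π * x + 2 * π * y) / 2 = π * (x + y) := by ring
    have e2 : (2 * π * x - 2 * π * y) / 2 = -(π * (y - x)) := by ring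
    rw [e1, e2, sin_neg]
    ring
  -- the midpoint
  have hM0 : 0 ≤ π * (x + y) := mul_nonneg hpi.le (by linarith)
  have hMpi : π * (x + y) ≤ π := by nlinarith
  have hc1 : cos (2 * π * y) ≤ cos (π * (x + y)) :=
    cos_le_cos_of_nonneg_of_le_pi hM0 (by nlinarith) (by nlinarith)
  have hc2 : cos (π * (x + y)) ≤ cos (2 * π * x) :=
    cos_le_cos_of_nonneg_of_le_pi (by positivity) hMpi (by nlinarith)
  have hcos : ∀ z, |L a z| < t → |cos (2 * π * z)| ≤ 2 / 3 := by
    intro z hz
    have h3 : |cos (2 * π * z)| * (2 * π * |a|) = |L a z - 2| := by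
      unfold L
      rw [add_sub_cancel_left, abs_mul, abs_mul, abs_of_pos (by positivity : 0 < 2 * π)]
      ring
    have h4 := abs_sub (L a z) 2
    rw [abs_of_pos (by norm_num : (0:ℝ) < 2)] at h4
    have h5 : |cos (2 * π * z)| * (2 * π * |a|) ≤ 2 / 3 * (2 * π * |a|) := by
      rw [h3]
      have h6 : 2 ≤ 2 * π * |a| / 3 := by
        have : 3 * 1 ≤ π * |a| := mul_le_mul hpi3.le ha (by norm_num) hpi.le
        linarith
      linarith
    exact le_of_mul_le_mul_right h5 (by positivity)
  have hcM : |cos (π * (x + y))| ≤ 2 / 3 := by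
    have k1 := abs_le.1 (hcos x h1)
    have k2 := abs_le.1 (hcos y h2)
    rw [abs_le]
    constructor <;> linarith
  have hsM : 7 / 10 ≤ sin (π * (x + y)) := by
    have hs0 : 0 ≤ sin (π * (x + y)) := sin_nonneg_of_nonneg_of_le_pi hM0 hMpi
    have hsq := sin_sq_add_cos_sq (π * (x + y))
    have hcsq : cos (π * (x + y)) ^ 2 ≤ 4 / 9 := by
      rw [← sq_abs]
      nlinarith [abs_nonneg (cos (π * (x + y)))]
    by_contra hcon
    rw [not_le] at hcon
    nlinarith
  have hsd : 2 * (y - x) ≤ sin (π * (y - x)) := by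
    have h := mul_le_sin (x := π * (y - x)) (by nlinarith) (by nlinarith)
    have e : 2 / π * (π * (y - x)) = 2 * (y - x) := by field_simp
    rwa [e] at h
  have hyx : 0 ≤ y - x := by linarith
  have h7 : 2 * π * |a| * (14 / 5 * (y - x)) ≤ 2 * t := by
    have h8 : |L a x - L a y| ≤ 2 * t := by
      have := abs_sub (L a x) (L a y)
      linarith
    have h9 : |L a x - L a y| = 2 * π * |a| *
        (2 * (sin (π * (x + y)) * sin (π * (y - x)))) := by
      have hn1 : 0 ≤ 2 * (sin (π * (x + y)) * sin (π * (y - x))) := by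
        have k1 : 0 ≤ sin (π * (y - x)) := by linarith
        have k2 : 0 ≤ sin (π * (x + y)) := by linarith
        positivity
      have hn2 : |2 * π * a| = 2 * π * |a| := by
        rw [abs_mul, abs_of_pos (by positivity : 0 < 2 * π)]
      rw [hdiff, hcs, abs_mul, abs_of_nonneg hn1, hn2]
    rw [h9] at h8
    refine le_trans ?_ h8
    apply mul_le_mul_of_nonneg_left _ (by positivity)
    have h10 : 7 / 10 * (2 * (y - x)) ≤ sin (π * (x + y)) * sin (π * (y - x)) :=
      mul_le_mul hsM hsd (by linarith) (by linarith)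
    linarith
  rw [le_div_iff₀ (by positivity)]
  nlinarith

/-- the measure of the strip in the circle -/
theorem strip_vol {a t : ℝ} (ha : 1 ≤ |a|) (ht0 : 0 < t) :
    volume {x : UnitAddCircle | |cc a x| < t} ≤ ENNReal.ofReal (t / (2 * |a|)) := by
  have hpi := pi_pos
  have hpi3 := pi_gt_three
  have ha0 : 0 < |a| := by linarith
  by_cases ht : t ≤ 2 * π * |a| / 3
  · have hm : MeasurableSet {x : UnitAddCircle | |cc a x| < t} :=
      (isOpen_lt (cc_cont a).abs continuous_const).measurableSet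
    have h1 := (UnitAddCircle.measurePreserving_mk 0).measure_preimage hm.nullMeasurableSet
    rw [← h1, Measure.restrict_apply ((UnitAddCircle.measurePreserving_mk 0).measurable hm)]
    set E1 : Set ℝ := {x | 0 ≤ x ∧ x ≤ 1 / 2 ∧ |L a x| < t} with hE1
    set E2 : Set ℝ := {x | 1 / 2 ≤ x ∧ x ≤ 1 ∧ |L a x| < t} with hE2
    have hsub : ((fun x : ℝ => (x : UnitAddCircle)) ⁻¹' {x : UnitAddCircle | |cc a x| < t}) ∩
        Set.Ioc (0:ℝ) (0 + 1) ⊆ E1 ∪ E2 := by
      rintro x ⟨hx1, hx2⟩
      have hx3 : |L a x| < t := by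
        have : |cc a (x : UnitAddCircle)| < t := hx1
        rwa [cc_coe] at this
      rw [zero_add] at hx2
      rcases le_total x (1 / 2) with h | h
      · exact Or.inl ⟨hx2.1.le, h, hx3⟩
      · exact Or.inr ⟨h, hx2.2, hx3⟩
    have hdiam : ∀ x y, x ∈ E1 → y ∈ E1 → |x - y| ≤ t / (14 / 5 * π * |a|) := by
      intro x y hx hy
      rcases le_total x y with h | h
      · rw [abs_sub_comm, abs_of_nonneg (by linarith)]
        exact strip_close ha ht hx.1 h hy.2.1 hx.2.2 hy.2.2
      · rw [abs_of_nonneg (by linarith)]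
        exact strip_close ha ht hy.1 h hx.2.1 hy.2.2 hx.2.2
    have hrefl : ∀ x, x ∈ E2 → (1 - x) ∈ E1 := by
      rintro x ⟨h1, h2, h3⟩
      refine ⟨by linarith, by linarith, ?_⟩
      have : L a (1 - x) = L a x := by
        unfold L
        have e : 2 * π * (1 - x) = 2 * π - 2 * π * x := by ring
        rw [e, cos_two_pi_sub]
      rw [this]
      exact h3
    have v1 : volume E1 ≤ ENNReal.ofReal (t / (14 / 5 * π * |a|)) := by
      refine (Real.volume_le_diam E1).trans (Metric.ediam_le fun x hx y hy => ?_)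
      rw [edist_dist, Real.dist_eq]
      exact ENNReal.ofReal_le_ofReal (hdiam x y hx hy)
    have v2 : volume E2 ≤ ENNReal.ofReal (t / (14 / 5 * π * |a|)) := by
      refine (Real.volume_le_diam E2).trans (Metric.ediam_le fun x hx y hy => ?_)
      rw [edist_dist, Real.dist_eq]
      apply ENNReal.ofReal_le_ofReal
      have := hdiam (1 - x) (1 - y) (hrefl x hx) (hrefl y hy)
      rwa [show (1 - x) - (1 - y) = -(x - y) by ring, abs_neg] at this
    calc volume (((fun x : ℝ => (x : UnitAddCircle)) ⁻¹' {x : UnitAddCircle | |cc a x| < t}) ∩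
        Set.Ioc (0:ℝ) (0 + 1)) ≤ volume (E1 ∪ E2) := measure_mono hsub
      _ ≤ volume E1 + volume E2 := measure_union_le _ _
      _ ≤ ENNReal.ofReal (t / (14 / 5 * π * |a|)) + ENNReal.ofReal (t / (14 / 5 * π * |a|)) :=
          add_le_add v1 v2
      _ = ENNReal.ofReal (t / (14 / 5 * π * |a|) + t / (14 / 5 * π * |a|)) :=
          (ENNReal.ofReal_add (by positivity) (by positivity)).symm
      _ ≤ ENNReal.ofReal (t / (2 * |a|)) := by
          apply ENNReal.ofReal_le_ofReal
          have e : t / (14 / 5 * π * |a|) + t / (14 / 5 * π * |a|) = t / (7 / 5 * π * |a|) := by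
            field_simp
            ring
          rw [e]
          apply div_le_div_of_nonneg_left ht0.le (by positivity)
          nlinarith
  · rw [not_le] at ht
    have h1 : volume {x : UnitAddCircle | |cc a x| < t} ≤ 1 := prob_le_one
    refine h1.trans ?_
    rw [← ENNReal.ofReal_one]
    apply ENNReal.ofReal_le_ofReal
    rw [le_div_iff₀ (by positivity)]
    nlinarith

/-- the bad region -/
def Bad (a K : ℝ) : Set T2 := {p | |cc a p.1 * cc a p.2| < K}

theorem Bad_meas (a K : ℝ) : MeasurableSet (Bad a K) :=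
  (isOpen_lt (((cc_cont a).comp continuous_fst).mul ((cc_cont a).comp continuous_snd)).abs
    continuous_const).measurableSet

/-- a product of two strips -/
theorem strip_prod {a s t : ℝ} (ha : 1 ≤ |a|) (hs : 0 < s) (ht : 0 < t) :
    volume ({x : UnitAddCircle | |cc a x| < s} ×ˢ {x : UnitAddCircle | |cc a x| < t}) ≤
      ENNReal.ofReal (s * t / (4 * |a| ^ 2)) := by
  have ha0 : 0 < |a| := by linarith
  rw [vol_T2, Measure.prod_prod]
  calc _ ≤ ENNReal.ofReal (s / (2 * |a|)) * ENNReal.ofReal (t / (2 * |a|)) :=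
        mul_le_mul' (strip_vol ha hs) (strip_vol ha ht)
    _ = ENNReal.ofReal (s / (2 * |a|) * (t / (2 * |a|))) :=
        (ENNReal.ofReal_mul (by positivity)).symm
    _ = ENNReal.ofReal (s * t / (4 * |a| ^ 2)) := by
        congr 1
        field_simp
        norm_num

/-- **the area of the bad region** -/
theorem Bad_vol {a K : ℝ} (ha : 1 ≤ |a|) (hK : 1 ≤ K) :
    volume.real (Bad a K) ≤ 8 * K * (1 + log |a|) / |a| ^ 2 := by
  have hpi := pi_pos
  have hpi3 := pi_gt_three
  have hpi4 := pi_lt_d2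
  have ha0 : 0 < |a| := by linarith
  have hK0 : 0 < K := by linarith
  have hloga : 0 ≤ log |a| := Real.log_nonneg ha
  set A : ℝ → Set UnitAddCircle := fun t => {x : UnitAddCircle | |cc a x| < t} with hA
  set M : ℝ := 2 + 2 * π * |a| with hM
  have hM1 : 1 ≤ M := by
    have : 0 ≤ 2 * π * |a| := by positivity
    linarith
  set N : ℕ := ⌊log M⌋₊ with hN
  set C : ℕ → Set T2 := fun i => A (exp (i + 1)) ×ˢ A (K * exp (-i)) with hC
  set C' : ℕ → Set T2 := fun i => A (K * exp (-i)) ×ˢ A (exp (i + 1)) with hC'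
  have hsub : Bad a K ⊆ ((⋃ i ∈ Finset.range (N + 1), C i) ∪
      (⋃ i ∈ Finset.range (N + 1), C' i)) ∪ A 1 ×ˢ A 1 := by
    have hlog : ∀ u v : ℝ, 1 ≤ |u| → |u| ≤ M → |u * v| < K →
        ∃ i ∈ Finset.range (N + 1), |u| < exp (i + 1) ∧ |v| < K * exp (-i) := by
      intro u v hu huM huv
      have hu0 : 0 < |u| := by linarith
      have hlu : 0 ≤ log |u| := Real.log_nonneg hu
      refine ⟨⌊log |u|⌋₊, ?_, ?_, ?_⟩
      · rw [Finset.mem_range, Nat.lt_succ_iff]
        exact Nat.floor_mono (Real.log_le_log hu0 huM)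
      · have h1 := Nat.lt_floor_add_one (log |u|)
        calc |u| = exp (log |u|) := (Real.exp_log hu0).symm
          _ < exp (⌊log |u|⌋₊ + 1) := Real.exp_lt_exp.2 h1
      · have h1 := Nat.floor_le hlu
        have h2 : exp (⌊log |u|⌋₊) ≤ |u| := by
          calc exp (⌊log |u|⌋₊) ≤ exp (log |u|) := Real.exp_le_exp.2 h1
            _ = |u| := Real.exp_log hu0
        rw [Real.exp_neg, ← div_eq_mul_inv, lt_div_iff₀ (Real.exp_pos _)]
        rw [abs_mul] at huv
        calc |v| * exp (⌊log |u|⌋₊) ≤ |v| * |u| := mul_le_mul_of_nonneg_left h2 (abs_nonneg _)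
          _ = |u| * |v| := mul_comm _ _
          _ < K := huv
    intro p hp
    have hp' : |cc a p.1 * cc a p.2| < K := hp
    by_cases h1 : 1 ≤ |cc a p.1|
    · obtain ⟨i, hi, h2, h3⟩ := hlog _ _ h1 (cc_le a p.1) hp'
      left; left
      exact Set.mem_biUnion (Finset.mem_coe.2 hi) ⟨h2, h3⟩
    · by_cases h2 : 1 ≤ |cc a p.2|
      · rw [mul_comm] at hp'
        obtain ⟨i, hi, h3, h4⟩ := hlog _ _ h2 (cc_le a p.2) hp'
        left; right
        exact Set.mem_biUnion (Finset.mem_coe.2 hi) ⟨h4, h3⟩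
      · right
        rw [not_le] at h1 h2
        exact ⟨h1, h2⟩
  set v : ℝ := exp 1 * K / (4 * |a| ^ 2) with hv
  have hv0 : 0 ≤ v := by positivity
  have hCv : ∀ i, volume (C i) ≤ ENNReal.ofReal v := by
    intro i
    refine (strip_prod ha (Real.exp_pos _) (by positivity)).trans (le_of_eq ?_)
    congr 1
    rw [hv]
    congr 1
    rw [Real.exp_add]
    have : exp (i : ℝ) * exp (-(i : ℝ)) = 1 := by rw [← Real.exp_add]; simp
    calc exp (i : ℝ) * exp 1 * (K * exp (-(i : ℝ))) =
        exp 1 * K * (exp (i : ℝ) * exp (-(i : ℝ))) := by ring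
      _ = exp 1 * K := by rw [this, mul_one]
  have hCv' : ∀ i, volume (C' i) ≤ ENNReal.ofReal v := by
    intro i
    refine (strip_prod ha (by positivity) (Real.exp_pos _)).trans (le_of_eq ?_)
    congr 1
    rw [hv]
    congr 1
    rw [Real.exp_add]
    have : exp (i : ℝ) * exp (-(i : ℝ)) = 1 := by rw [← Real.exp_add]; simp
    calc K * exp (-(i : ℝ)) * (exp (i : ℝ) * exp 1) =
        exp 1 * K * (exp (i : ℝ) * exp (-(i : ℝ))) := by ring
      _ = exp 1 * K := by rw [this, mul_one]
  have hU : ∀ D : ℕ → Set T2, (∀ i, volume (D i) ≤ ENNReal.ofReal v) →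
      volume (⋃ i ∈ Finset.range (N + 1), D i) ≤ ENNReal.ofReal ((N + 1) * v) := by
    intro D hD
    refine (measure_biUnion_finset_le _ _).trans ?_
    calc ∑ i ∈ Finset.range (N + 1), volume (D i)
        ≤ ∑ i ∈ Finset.range (N + 1), ENNReal.ofReal v := Finset.sum_le_sum fun i _ => hD i
      _ = ENNReal.ofReal ((N + 1) * v) := by
        rw [Finset.sum_const, Finset.card_range, nsmul_eq_mul, ENNReal.ofReal_mul (by positivity)]
        congr 1
        rw [show ((N : ℝ) + 1) = ((N + 1 : ℕ) : ℝ) by push_cast; ring, ENNReal.ofReal_natCast]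
  have h11 : volume (A 1 ×ˢ A 1) ≤ ENNReal.ofReal (1 * 1 / (4 * |a| ^ 2)) :=
    strip_prod ha one_pos one_pos
  have htot : volume (Bad a K) ≤
      ENNReal.ofReal ((N + 1) * v + (N + 1) * v + 1 * 1 / (4 * |a| ^ 2)) := by
    refine (measure_mono hsub).trans ?_
    refine (measure_union_le _ _).trans ?_
    rw [ENNReal.ofReal_add (by positivity) (by positivity),
      ENNReal.ofReal_add (by positivity) (by positivity)]
    exact add_le_add ((measure_union_le _ _).trans (add_le_add (hU C hCv) (hU C' hCv'))) h11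
  rw [measureReal_def]
  refine (ENNReal.toReal_le_of_le_ofReal (by positivity) htot).trans ?_
  -- the logarithm of `M`
  have hNM : (N : ℝ) ≤ log M := Nat.floor_le (Real.log_nonneg hM1)
  have hlM : log M ≤ 9 / 4 + log |a| := by
    have h1 : M ≤ exp (9 / 4) * |a| := by
      have h2 : 2 + 2 * π ≤ exp (9 / 4) := by
        have h3 : (2.7182818283 : ℝ) < exp 1 := Real.exp_one_gt_d9
        have h4 : exp (9 / 4 : ℝ) = exp 1 * exp 1 * exp (1 / 4) := by
          rw [← Real.exp_add, ← Real.exp_add]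
          norm_num
        have h5 : (1 / 4 : ℝ) + 1 ≤ exp (1 / 4) := Real.add_one_le_exp _
        have h6 : (7.38 : ℝ) ≤ exp 1 * exp 1 := by nlinarith
        rw [h4]
        nlinarith
      calc M ≤ (2 + 2 * π) * |a| := by rw [hM]; nlinarith
        _ ≤ _ := mul_le_mul_of_nonneg_right h2 ha0.le
    calc log M ≤ log (exp (9 / 4) * |a|) := Real.log_le_log (by linarith) h1
      _ = 9 / 4 + log |a| := by
        rw [Real.log_mul (Real.exp_pos _).ne' ha0.ne', Real.log_exp]
  have he : exp 1 < 2.7182818286 := Real.exp_one_lt_d9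
  have hfin : (N + 1) * v + (N + 1) * v + 1 * 1 / (4 * |a| ^ 2) =
      (2 * (N + 1) * (exp 1 * K) + 1) / (4 * |a| ^ 2) := by
    rw [hv]
    field_simp
    ring
  rw [hfin]
  have hle : 2 * ((N : ℝ) + 1) * (exp 1 * K) + 1 ≤ 32 * K * (1 + log |a|) := by
    have h1 : (N : ℝ) + 1 ≤ 13 / 4 * (1 + log |a|) := by nlinarith
    have h2 : exp 1 * K ≤ 2.72 * K := by nlinarith
    have h3 : 2 * ((N : ℝ) + 1) * (exp 1 * K) ≤ 2 * (13 / 4 * (1 + log |a|)) * (2.72 * K) := by
      apply mul_le_mul (by linarith) h2 (by positivity) (by positivity)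
    have h4 : 1 ≤ K * (1 + log |a|) := by nlinarith
    nlinarith
  calc (2 * ((N : ℝ) + 1) * (exp 1 * K) + 1) / (4 * |a| ^ 2)
      ≤ (32 * K * (1 + log |a|)) / (4 * |a| ^ 2) :=
        div_le_div_of_nonneg_right hle (by positivity)
    _ = _ := by
        field_simp
        ring

end Pool.Agent.Run7.h425.SM
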