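import Mathlib

set_option autoImplicit false

/-!
# Second moments of Birkhoff sums, for all times, from the decay of correlations up to a finite time
-/

namespace Pool.Agent.Run7.h425.SM

open MeasureTheory Finset Function

variable {X : Type*} [MeasurableSpace X] {μ : Measure X}

theorem int_comp {T : X → X} (hT : MeasurePreserving T μ μ) (k : ℕ) {g : X → ℝ}
    (hg : Measurable g) : ∫ x, g (T^[k] x) ∂μ = ∫ x, g x ∂μ := by
  have h1 := (hT.iterate k).map_eq
  calc ∫ x, g (T^[k] x) ∂μ = ∫ x, g x ∂(Measure.map (T^[k]) μ) := by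
        rw [integral_map (hT.iterate k).measurable.aemeasurable hg.aestronglyMeasurable]
    _ = _ := by rw [h1]

/-- the second moment of a Birkhoff sum -/
theorem second_moment [IsProbabilityMeasure μ]
    {T : X → X} (hT : MeasurePreserving T μ μ) {f : X → ℝ} (hf : Measurable f)
    (hf2 : ∀ x, |f x| ≤ 2) {n : ℕ} {B : ℝ} (hB0 : 0 ≤ B)
    (hB : ∀ k, 3 ≤ k → k < n → |∫ x, f (T^[k] x) * f x ∂μ| ≤ B) :
    ∫ x, (∑ k ∈ range n, f (T^[k] x)) ^ 2 ∂μ ≤ n * (n * B + 20) := by
  have hit : ∀ k, MeasurePreserving (T^[k]) μ μ := fun k => hT.iterate k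
  have hint : ∀ g : X → ℝ, Measurable g → (∃ M, ∀ x, |g x| ≤ M) → Integrable g μ := by
    rintro g hg ⟨M, hM⟩
    exact Integrable.of_bound hg.aestronglyMeasurable M
      (Filter.Eventually.of_forall fun x => by rw [Real.norm_eq_abs]; exact hM x)
  have hcomp : ∀ k (g : X → ℝ), Measurable g → ∫ x, g (T^[k] x) ∂μ = ∫ x, g x ∂μ :=
    fun k g hg => int_comp hT k hg
  have hfk : ∀ k, Measurable (fun x => f (T^[k] x)) := fun k => hf.comp (hit k).measurable
  have hcor : ∀ i j : ℕ, |∫ x, f (T^[i] x) * f (T^[j] x) ∂μ| ≤ 4 := by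
    intro i j
    have := norm_integral_le_of_norm_le_const (μ := μ) (f := fun x => f (T^[i] x) * f (T^[j] x))
      (C := 4) (Filter.Eventually.of_forall fun x => by
        rw [Real.norm_eq_abs, abs_mul]
        nlinarith [hf2 (T^[i] x), hf2 (T^[j] x), abs_nonneg (f (T^[i] x)),
          abs_nonneg (f (T^[j] x))])
    simpa using this
  have hshift : ∀ i j : ℕ, i ≤ j → ∫ x, f (T^[i] x) * f (T^[j] x) ∂μ =
      ∫ x, f (T^[j - i] x) * f x ∂μ := by
    intro i j hij
    have h3 := hcomp i (fun x => f (T^[j - i] x) * f x) ((hfk _).mul hf)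
    rw [← h3]
    apply integral_congr_ae
    refine Filter.Eventually.of_forall fun x => ?_
    simp only
    rw [← iterate_add_apply, Nat.sub_add_cancel hij]
    ring
  have hpair : ∀ i ∈ range n, ∀ j ∈ range n, ∫ x, f (T^[i] x) * f (T^[j] x) ∂μ ≤
      B + if j ∈ Icc (i - 2) (i + 2) then 4 else 0 := by
    intro i hi j hj
    rw [Finset.mem_range] at hi hj
    by_cases h : j ∈ Icc (i - 2) (i + 2)
    · rw [if_pos h]
      have := (abs_le.1 (hcor i j)).2
      linarith
    · rw [if_neg h, add_zero]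
      rw [Finset.mem_Icc] at h
      rcases le_total i j with hij | hij
      · rw [hshift i j hij]
        exact (abs_le.1 (hB (j - i) (by omega) (by omega))).2
      · have e : ∫ x, f (T^[i] x) * f (T^[j] x) ∂μ = ∫ x, f (T^[j] x) * f (T^[i] x) ∂μ := by
          apply integral_congr_ae
          exact Filter.Eventually.of_forall fun x => mul_comm _ _
        rw [e, hshift j i hij]
        exact (abs_le.1 (hB (i - j) (by omega) (by omega))).2
  have e : ∀ x, (∑ k ∈ range n, f (T^[k] x)) ^ 2 =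
      ∑ i ∈ range n, ∑ j ∈ range n, f (T^[i] x) * f (T^[j] x) := by
    intro x
    rw [pow_two, sum_mul_sum]
  simp_rw [e]
  have hij : ∀ i j : ℕ, Integrable (fun x => f (T^[i] x) * f (T^[j] x)) μ := by
    intro i j
    refine hint _ ((hfk i).mul (hfk j)) ⟨4, fun x => ?_⟩
    rw [abs_mul]
    nlinarith [hf2 (T^[i] x), hf2 (T^[j] x), abs_nonneg (f (T^[i] x)),
        abs_nonneg (f (T^[j] x))]
  rw [integral_finsetSum _ fun i _ => integrable_finsetSum _ fun j _ => hij i j]
  have h5 : ∀ i ∈ range n, ∫ x, ∑ j ∈ range n, f (T^[i] x) * f (T^[j] x) ∂μ ≤ n * B + 20 := by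
    intro i hi
    rw [integral_finsetSum _ fun j _ => hij i j]
    refine (sum_le_sum fun j hj => hpair i hi j hj).trans ?_
    rw [sum_add_distrib, sum_const, card_range, nsmul_eq_mul, ← sum_filter, sum_const,
      nsmul_eq_mul]
    have h6 : (((range n).filter fun j => j ∈ Icc (i - 2) (i + 2)).card : ℝ) ≤ 5 := by
      have h7 : ((range n).filter fun j => j ∈ Icc (i - 2) (i + 2)).card ≤
          (Icc (i - 2) (i + 2)).card := by
        apply card_le_card
        intro j hj
        exact (mem_filter.1 hj).2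
      rw [Nat.card_Icc] at h7
      have h8 : ((range n).filter fun j => j ∈ Icc (i - 2) (i + 2)).card ≤ 5 := by omega
      exact_mod_cast h8
    linarith
  refine (sum_le_sum h5).trans ?_
  rw [sum_const, card_range, nsmul_eq_mul]

/-- the second moment of a Birkhoff sum, for all times -/
theorem second_moment_all [IsProbabilityMeasure μ]
    {T : X → X} (hT : MeasurePreserving T μ μ) {f : X → ℝ} (hf : Measurable f)
    (hf2 : ∀ x, |f x| ≤ 2) {q : ℕ} (hq : 1 ≤ q) {B : ℝ} (hB0 : 0 ≤ B)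
    (hB : ∀ k, 3 ≤ k → k < q → |∫ x, f (T^[k] x) * f x ∂μ| ≤ B) {n : ℕ} (hn : 1 ≤ n) :
    ∫ x, (∑ k ∈ range n, f (T^[k] x)) ^ 2 ∂μ ≤ 4 * (n : ℝ) ^ 2 * (20 / n + 20 / q + B) := by
  have hq0 : (0 : ℝ) < q := by exact_mod_cast hq
  have hn0 : (0 : ℝ) < n := by exact_mod_cast hn
  set W : ℝ := q * (q * B + 20) with hW
  have hW0 : 0 ≤ W := by positivity
  have hsmall : ∀ m, m ≤ q → ∫ x, (∑ k ∈ range m, f (T^[k] x)) ^ 2 ∂μ ≤ m * (m * B + 20) :=
    fun m hm => second_moment hT hf hf2 hB0 fun k hk hkm => hB k hk (hkm.trans_le hm)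
  have hsmall' : ∀ m, m ≤ q → ∫ x, (∑ k ∈ range m, f (T^[k] x)) ^ 2 ∂μ ≤ W := by
    intro m hm
    refine (hsmall m hm).trans ?_
    have h1 : (m : ℝ) ≤ q := by exact_mod_cast hm
    have h0 : (0 : ℝ) ≤ m := Nat.cast_nonneg m
    rw [hW]
    apply mul_le_mul h1 _ (by positivity) hq0.le
    have := mul_le_mul_of_nonneg_right h1 hB0
    linarith
  have hSm : ∀ m, Measurable fun x => ∑ k ∈ range m, f (T^[k] x) := fun m =>
    Finset.measurable_fun_sum _ fun k _ => hf.comp (hT.iterate k).measurable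
  have hSb : ∀ m x, |∑ k ∈ range m, f (T^[k] x)| ≤ m * 2 := by
    intro m x
    refine (abs_sum_le_sum_abs _ _).trans ?_
    refine (sum_le_sum fun k _ => hf2 _).trans ?_
    rw [sum_const, card_range, nsmul_eq_mul]
  have hSi : ∀ m, Integrable (fun x => (∑ k ∈ range m, f (T^[k] x)) ^ 2) μ := by
    intro m
    refine Integrable.of_bound ((hSm m).pow_const 2).aestronglyMeasurable ((m * 2) ^ 2)
      (Filter.Eventually.of_forall fun x => ?_)
    rw [Real.norm_eq_abs, abs_pow]
    exact pow_le_pow_left₀ (abs_nonneg _) (hSb m x) 2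
  by_cases hnq : n ≤ q
  · refine (hsmall n hnq).trans ?_
    have e : 4 * (n : ℝ) ^ 2 * (20 / n + 20 / q + B) =
        n * (n * B + 20) + (n * (3 * n * B + 60) + 80 * n ^ 2 / q) := by
      field_simp
      ring
    rw [e]
    have : 0 ≤ (n : ℝ) * (3 * n * B + 60) + 80 * n ^ 2 / q := by positivity
    linarith
  · rw [not_le] at hnq
    have key : ∀ (b r : ℕ), r ≤ q → ∫ x, (∑ k ∈ range (q * b + r), f (T^[k] x)) ^ 2 ∂μ ≤
        ((b : ℝ) + 1) ^ 2 * W := by
      intro b
      induction b with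
      | zero =>
        intro r hr
        have := hsmall' r hr
        simpa using this
      | succ b ih =>
        intro r hr
        have h1 := ih r hr
        have hb0 : (0 : ℝ) < (b : ℝ) + 1 := by positivity
        have hsplit : ∀ x, ∑ k ∈ range (q * (b + 1) + r), f (T^[k] x) =
            (∑ k ∈ range q, f (T^[k] x)) + ∑ k ∈ range (q * b + r), f (T^[k] (T^[q] x)) := by
          intro x
          rw [show q * (b + 1) + r = q + (q * b + r) by ring, Finset.sum_range_add]
          congr 1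
          refine Finset.sum_congr rfl fun k _ => ?_
          rw [← iterate_add_apply, Nat.add_comm k q]
        have hpt : ∀ x, (∑ k ∈ range (q * (b + 1) + r), f (T^[k] x)) ^ 2 ≤
            ((b : ℝ) + 2) * (∑ k ∈ range q, f (T^[k] x)) ^ 2 +
              (1 + 1 / ((b : ℝ) + 1)) * (∑ k ∈ range (q * b + r), f (T^[k] (T^[q] x))) ^ 2 := by
          intro x
          rw [hsplit x]
          set u := ∑ k ∈ range q, f (T^[k] x) with hu
          set v := ∑ k ∈ range (q * b + r), f (T^[k] (T^[q] x)) with hv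
          have h2 : ((b : ℝ) + 2) * u ^ 2 + (1 + 1 / ((b : ℝ) + 1)) * v ^ 2 - (u + v) ^ 2 =
              (((b : ℝ) + 1) * u - v) ^ 2 / ((b : ℝ) + 1) := by
            field_simp
            ring
          have h3 : 0 ≤ (((b : ℝ) + 1) * u - v) ^ 2 / ((b : ℝ) + 1) := by positivity
          linarith
        have i1 : Integrable (fun x => ((b : ℝ) + 2) * (∑ k ∈ range q, f (T^[k] x)) ^ 2) μ :=
          (hSi q).const_mul _
        have i2 : Integrable (fun x => (1 + 1 / ((b : ℝ) + 1)) *
            (∑ k ∈ range (q * b + r), f (T^[k] (T^[q] x))) ^ 2) μ :=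
          ((hT.iterate q).integrable_comp_of_integrable (hSi (q * b + r))).const_mul _
        have h4 : ∫ x, (∑ k ∈ range (q * b + r), f (T^[k] (T^[q] x))) ^ 2 ∂μ =
            ∫ x, (∑ k ∈ range (q * b + r), f (T^[k] x)) ^ 2 ∂μ :=
          int_comp hT q ((hSm (q * b + r)).pow_const 2)
        have h5 := hsmall' q le_rfl
        calc ∫ x, (∑ k ∈ range (q * (b + 1) + r), f (T^[k] x)) ^ 2 ∂μ
            ≤ ∫ x, (((b : ℝ) + 2) * (∑ k ∈ range q, f (T^[k] x)) ^ 2 +
              (1 + 1 / ((b : ℝ) + 1)) * (∑ k ∈ range (q * b + r), f (T^[k] (T^[q] x))) ^ 2) ∂μ :=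
              integral_mono (hSi _) (i1.add i2) hpt
          _ = ((b : ℝ) + 2) * ∫ x, (∑ k ∈ range q, f (T^[k] x)) ^ 2 ∂μ +
              (1 + 1 / ((b : ℝ) + 1)) *
                ∫ x, (∑ k ∈ range (q * b + r), f (T^[k] x)) ^ 2 ∂μ := by
              rw [integral_add i1 i2, integral_const_mul, integral_const_mul, h4]
          _ ≤ ((b : ℝ) + 2) * W + (1 + 1 / ((b : ℝ) + 1)) * (((b : ℝ) + 1) ^ 2 * W) :=
              add_le_add (mul_le_mul_of_nonneg_left h5 (by positivity))
                (mul_le_mul_of_nonneg_left h1 (by positivity))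
          _ = (((b + 1 : ℕ) : ℝ) + 1) ^ 2 * W := by
              push_cast
              field_simp
              ring
    have h1 := key (n / q) (n % q) (Nat.mod_lt _ hq).le
    rw [Nat.div_add_mod] at h1
    refine h1.trans ?_
    have hb1 : 1 ≤ n / q := (Nat.one_le_div_iff hq).2 hnq.le
    have hb1' : (1 : ℝ) ≤ ((n / q : ℕ) : ℝ) := by exact_mod_cast hb1
    have hbq : ((n / q : ℕ) : ℝ) * q ≤ n := by
      have := Nat.div_mul_le_self n q
      exact_mod_cast this
    set b : ℝ := ((n / q : ℕ) : ℝ) with hb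
    have h2 : (b + 1) * q ≤ 2 * n := by nlinarith
    have h3 : ((b + 1) * q) ^ 2 ≤ (2 * (n : ℝ)) ^ 2 :=
      pow_le_pow_left₀ (by positivity) h2 2
    have e : (b + 1) ^ 2 * W = ((b + 1) * q) ^ 2 * (20 / q + B) := by
      rw [hW]
      field_simp
      ring
    rw [e]
    have h4 : 0 ≤ 20 / (q : ℝ) + B := by positivity
    have h5 : 20 / (q : ℝ) + B ≤ 20 / n + 20 / q + B := by
      have : 0 ≤ 20 / (n : ℝ) := by positivity
      linarith
    calc ((b + 1) * q) ^ 2 * (20 / q + B) ≤ (2 * (n : ℝ)) ^ 2 * (20 / q + B) :=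
          mul_le_mul_of_nonneg_right h3 h4
      _ ≤ (2 * (n : ℝ)) ^ 2 * (20 / n + 20 / q + B) :=
          mul_le_mul_of_nonneg_left h5 (by positivity)
      _ = _ := by ring

end Pool.Agent.Run7.h425.SM
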