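import Pool.Agent.V1152.SMIC
import Pool.Agent.Run7.h425.SM.Moment

set_option autoImplicit false

/-!
# The law of large numbers for the standard map, for all times
-/

namespace Pool.Agent.Run7.h425.SM

open Real MeasureTheory Function Pool.Agent.TH705.SM
open Pool.Agent.V1152.SMI (corr_obs K1_nonneg)

/-- the correlations of a function of the first coordinate -/
theorem corr_x {a l : ℝ} (hl' : l0 ≤ l) (hla : l ≤ |a|) {k : ℕ} (hk : 3 ≤ k)
    {g : UnitAddCircle → ℝ} (hg : Continuous g) (hg1 : ∀ x, |g x| ≤ 1) :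
    |∫ q : T2, (g (((S a)^[k] q).1) - ∫ x, g x) * (g q.1 - ∫ x, g x)| ≤
      2 * (208 * KK * π ^ 2 / l + 2 * k * (l / |a|)) := by
  have hone : Periodic (fun _ : ℝ => (1:ℝ)) 1 := fun _ => rfl
  have hzero : Periodic (fun _ : ℝ => (0:ℝ)) 1 := fun _ => rfl
  have honel : ∀ y : UnitAddCircle, hone.lift y = 1 := by
    intro y
    induction y using QuotientAddGroup.induction_on with
    | H t => rfl
  have h := corr_obs hl' hla hk hg hg1 (H := fun _ => 1) (H' := fun _ => 0)
    (fun x => hasDerivAt_const x 1) continuous_const hone hzero (fun _ => by norm_num)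
    (Dv := 0) (by simp) hg hg1 (H2 := fun _ => 1) (H2' := fun _ => 0)
    (fun x => hasDerivAt_const x 1) continuous_const hone hzero (fun _ => by norm_num) (by simp)
  simp only [honel, mul_one, mul_zero, zero_div, add_zero] at h
  have e1 : ∫ _ : UnitAddCircle, (1:ℝ) = 1 := by simp
  rw [e1, mul_one] at h
  set c := ∫ x, g x with hc
  have hit := (S_cont a).iterate k
  have j1 : Continuous (fun q : T2 => g (((S a)^[k] q).1)) := hg.comp (continuous_fst.comp hit)
  have j2 : Continuous (fun q : T2 => g q.1) := hg.comp continuous_fst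
  have i1 : Integrable (fun q : T2 => (g (((S a)^[k] q).1) - c) * g q.1) :=
    integrable_cont ((j1.sub continuous_const).mul j2)
  have i2 : Integrable (fun q : T2 => g (((S a)^[k] q).1) - c) :=
    integrable_cont (j1.sub continuous_const)
  have e0 : ∫ q : T2, g (((S a)^[k] q).1) = c := by
    have h4 := int_comp (S_mp a) k j2.measurable
    rw [h4]
    have h5 : ∫ q : T2, g q.1 = (∫ x, g x) * ∫ _ : UnitAddCircle, (1:ℝ) := by
      have := integral_prod_mul (μ := (volume : Measure UnitAddCircle))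
        (ν := (volume : Measure UnitAddCircle)) g (fun _ => (1:ℝ))
      simp only [mul_one] at this
      exact this
    rw [h5, e1, mul_one]
  have e2 : ∫ q : T2, (g (((S a)^[k] q).1) - c) = 0 := by
    rw [integral_sub (integrable_cont j1) (integrable_const c), e0, integral_const]
    simp
  have e3 : ∫ q : T2, (g (((S a)^[k] q).1) - c) * (g q.1 - c) =
      ∫ q : T2, (g (((S a)^[k] q).1) - c) * g q.1 := by
    have e4 : ∀ q : T2, (g (((S a)^[k] q).1) - c) * (g q.1 - c) =
        (g (((S a)^[k] q).1) - c) * g q.1 - c * (g (((S a)^[k] q).1) - c) := by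
      intro q
      ring
    simp_rw [e4]
    rw [integral_sub i1 (i2.const_mul c), integral_const_mul, e2, mul_zero, sub_zero]
  rw [e3]
  exact h

/-- the constant -/
noncomputable def C1 : ℝ := 4 * (48 + 416 * KK * π ^ 2) + 4 * l0

theorem C1_pos : 0 < C1 := by
  have h1 := K1_nonneg
  have h2 := l0_ge
  unfold C1
  nlinarith

/-- **the law of large numbers, for all times** -/
theorem lln {a : ℝ} (ha : 1 ≤ |a|) {g : UnitAddCircle → ℝ} (hg : Continuous g)
    (hg1 : ∀ x, |g x| ≤ 1) {n : ℕ} (hn : 1 ≤ n) :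
    ∫ q : T2, (∑ k ∈ Finset.range n, (g (((S a)^[k] q).1) - ∫ x, g x)) ^ 2 ≤
      (n : ℝ) ^ 2 * (C1 * (1 / n + |a| ^ (-(1 / 3) : ℝ))) := by
  have ha0 : 0 < |a| := by linarith
  have hn0 : (0 : ℝ) < n := by exact_mod_cast hn
  have hK1 := K1_nonneg
  have hl0 := l0_ge
  have hC1 := C1_pos
  set c := ∫ x, g x with hc
  have hc1 : |c| ≤ 1 := by
    have := norm_integral_le_of_norm_le_const (μ := (volume : Measure UnitAddCircle)) (f := g)
      (C := 1) (Filter.Eventually.of_forall fun x => by rw [norm_eq_abs]; exact hg1 x)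
    simpa using this
  set f : T2 → ℝ := fun q => g q.1 - c with hf
  have hfc : Continuous f := (hg.comp continuous_fst).sub continuous_const
  have hf2 : ∀ q, |f q| ≤ 2 := by
    intro q
    have h1 := abs_le.1 (hg1 q.1)
    have h2 := abs_le.1 hc1
    show |g q.1 - c| ≤ 2
    rw [abs_le]
    constructor <;> linarith
  obtain ⟨r, hr⟩ : ∃ r : ℝ, r = |a| ^ (1 / 3 : ℝ) := ⟨_, rfl⟩
  have hr1 : 1 ≤ r := by rw [hr]; exact Real.one_le_rpow ha (by norm_num)
  have hr0 : 0 < r := by linarith
  have hr3 : r ^ 3 = |a| := by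
    rw [hr, ← Real.rpow_natCast, ← Real.rpow_mul ha0.le]
    norm_num
  have hrinv : |a| ^ (-(1 / 3) : ℝ) = 1 / r := by
    rw [Real.rpow_neg ha0.le, ← hr, one_div]
  rw [hrinv]
  by_cases hcase : l0 ≤ r
  · set q := ⌈r⌉₊ with hq
    have hqr : r ≤ q := Nat.le_ceil r
    have hqr2 : (q : ℝ) ≤ 2 * r := by
      have := (Nat.ceil_lt_add_one hr0.le).le
      rw [← hq] at this
      linarith
    have hq1 : 1 ≤ q := by
      have h1 : (1 : ℝ) ≤ q := hr1.trans hqr
      exact_mod_cast h1
    have hra : r ≤ |a| := by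
      rw [← hr3]
      nlinarith [mul_le_mul hr1 hr1 zero_le_one hr0.le]
    set B := 2 * (208 * KK * π ^ 2 / r + 2 * q * (r / |a|)) with hB
    have hB0 : 0 ≤ B := by
      rw [hB]
      have h1 : 0 ≤ 208 * KK * π ^ 2 / r := div_nonneg hK1 hr0.le
      have h3 : 0 ≤ 2 * q * (r / |a|) := by positivity
      linarith
    have hcor : ∀ k, 3 ≤ k → k < q → |∫ x, f ((S a)^[k] x) * f x| ≤ B := by
      intro k hk hkq
      refine (corr_x hcase hra hk hg hg1).trans ?_
      rw [hB]
      have hk2 : (k : ℝ) ≤ q := by exact_mod_cast hkq.le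
      have h5 : 2 * (k : ℝ) * (r / |a|) ≤ 2 * q * (r / |a|) := by
        apply mul_le_mul_of_nonneg_right _ (by positivity)
        linarith
      linarith
    have h1 := second_moment_all (S_mp a) hfc.measurable hf2 hq1 hB0 hcor hn
    refine h1.trans ?_
    have h3 : 20 / (q : ℝ) ≤ 20 / r := div_le_div_of_nonneg_left (by norm_num) hr0 hqr
    have h4 : 2 * (q : ℝ) * (r / |a|) ≤ 4 / r := by
      rw [← hr3]
      have e : r / r ^ 3 = 1 / r ^ 2 := by field_simp
      rw [e]
      calc 2 * (q : ℝ) * (1 / r ^ 2) ≤ 2 * (2 * r) * (1 / r ^ 2) := by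
            apply mul_le_mul_of_nonneg_right _ (by positivity)
            linarith
        _ = 4 / r := by
            field_simp
            ring
    have h5 : 20 / (n : ℝ) + 20 / q + B ≤ (48 + 416 * KK * π ^ 2) * (1 / n + 1 / r) := by
      have e : (48 + 416 * KK * π ^ 2) * (1 / (n : ℝ) + 1 / r) =
          20 / n + 20 / r + 2 * (208 * KK * π ^ 2 / r + 4 / r) +
            ((28 + 416 * KK * π ^ 2) / n + 20 / r) := by ring
      have h6 : 0 ≤ (28 + 416 * KK * π ^ 2) / n + 20 / r := by
        have : 0 ≤ 28 + 416 * KK * π ^ 2 := by linarith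
        positivity
      rw [e, hB]
      linarith
    have h6 : 0 ≤ 1 / (n : ℝ) + 1 / r := by positivity
    calc 4 * (n : ℝ) ^ 2 * (20 / n + 20 / q + B)
        ≤ 4 * (n : ℝ) ^ 2 * ((48 + 416 * KK * π ^ 2) * (1 / n + 1 / r)) :=
          mul_le_mul_of_nonneg_left h5 (by positivity)
      _ = (n : ℝ) ^ 2 * ((4 * (48 + 416 * KK * π ^ 2)) * (1 / n + 1 / r)) := by ring
      _ ≤ (n : ℝ) ^ 2 * (C1 * (1 / n + 1 / r)) := by
          apply mul_le_mul_of_nonneg_left _ (by positivity)
          apply mul_le_mul_of_nonneg_right _ h6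
          unfold C1
          linarith
  · rw [not_le] at hcase
    have h2 : ∀ q : T2, (∑ k ∈ Finset.range n, (g (((S a)^[k] q).1) - c)) ^ 2 ≤
        4 * (n : ℝ) ^ 2 := by
      intro q
      have h3 : |∑ k ∈ Finset.range n, (g (((S a)^[k] q).1) - c)| ≤ n * 2 := by
        refine (Finset.abs_sum_le_sum_abs _ _).trans ?_
        refine (Finset.sum_le_sum fun k _ => hf2 ((S a)^[k] q)).trans ?_
        rw [Finset.sum_const, Finset.card_range, nsmul_eq_mul]
      rw [← sq_abs]
      calc |∑ k ∈ Finset.range n, (g (((S a)^[k] q).1) - c)| ^ 2 ≤ (n * 2) ^ 2 :=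
            pow_le_pow_left₀ (abs_nonneg _) h3 2
        _ = _ := by ring
    have hcont : Continuous fun q : T2 =>
        (∑ k ∈ Finset.range n, (g (((S a)^[k] q).1) - c)) ^ 2 := by
      apply Continuous.pow
      exact continuous_finsetSum _ fun k _ =>
        (hg.comp (continuous_fst.comp ((S_cont a).iterate k))).sub continuous_const
    have h3 : ∫ q : T2, (∑ k ∈ Finset.range n, (g (((S a)^[k] q).1) - c)) ^ 2 ≤
        4 * (n : ℝ) ^ 2 := by
      have h4 := integral_mono (integrable_cont hcont) (integrable_const (4 * (n : ℝ) ^ 2)) h2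
      simpa using h4
    refine h3.trans ?_
    have h5 : 4 ≤ 4 * l0 * (1 / r) := by
      rw [mul_one_div, le_div_iff₀ hr0]
      nlinarith
    have h6 : 4 * l0 * (1 / r) ≤ C1 * (1 / n + 1 / r) := by
      have h7 : 4 * l0 ≤ C1 := by
        unfold C1
        nlinarith
      have h8 : 0 ≤ 1 / (n : ℝ) := by positivity
      calc 4 * l0 * (1 / r) ≤ C1 * (1 / r) := mul_le_mul_of_nonneg_right h7 (by positivity)
        _ ≤ C1 * (1 / n + 1 / r) := mul_le_mul_of_nonneg_left (by linarith) hC1.le
    calc 4 * (n : ℝ) ^ 2 = (n : ℝ) ^ 2 * 4 := by ring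
      _ ≤ (n : ℝ) ^ 2 * (C1 * (1 / n + 1 / r)) :=
          mul_le_mul_of_nonneg_left (h5.trans h6) (by positivity)

end Pool.Agent.Run7.h425.SM
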