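import Pool.Agent.Run7.h425.SM.Area
import Pool.Agent.Run7.h425.SM.Rec
import Pool.Agent.Run7.h425.SM.Lln

set_option autoImplicit false

/-!
# The derivative along the orbits which avoid the bad region
-/

namespace Pool.Agent.Run7.h425.SM

open Real MeasureTheory Function Pool.Agent.TH705.SM
open Pool.Agent.V1152.SMI (cc cc_coe cc_cont cc_le Lper pm pm' pm_hasFDeriv pm_iter_fderiv ff
  ff_cont ff_period ff_bound ff_mean norm_bound)

theorem iter_pm (a s t : ℝ) (k : ℕ) : (pm a)^[k] (t, s) = (X a s (k + 1) t, X a s k t) :=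
  iter_plane a s t k

/-- the derivative in the direction of the first coordinate -/
theorem fd_one (a s t : ℝ) (n : ℕ) :
    (fderiv ℝ (pm a)^[n] (t, s)) (1, 0) = (D a s (n + 1) t, D a s n t) := by
  induction n with
  | zero =>
    have : fderiv ℝ (pm a)^[0] (t, s) = ContinuousLinearMap.id ℝ (ℝ × ℝ) := fderiv_id
    rw [this]
    rfl
  | succ n ih =>
    rw [(pm_iter_fderiv a (t, s) n).2, ContinuousLinearMap.comp_apply, ih, iter_pm]
    unfold pm'
    simp only [ContinuousLinearMap.prod_apply, ContinuousLinearMap.sub_apply,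
      ContinuousLinearMap.smul_apply, ContinuousLinearMap.coe_fst', ContinuousLinearMap.coe_snd',
      smul_eq_mul]
    rfl

theorem norm_ge (a s t : ℝ) (n : ℕ) : |D a s (n + 1) t| ≤ ‖fderiv ℝ (pm a)^[n] (t, s)‖ ∧
    |D a s n t| ≤ ‖fderiv ℝ (pm a)^[n] (t, s)‖ := by
  have h1 := (fderiv ℝ (pm a)^[n] (t, s)).le_opNorm (1, 0)
  have h2 : ‖((1:ℝ), (0:ℝ))‖ = 1 := by simp [Prod.norm_def]
  rw [h2, mul_one, fd_one, Prod.norm_def] at h1
  exact ⟨(le_max_left _ _).trans h1, (le_max_right _ _).trans h1⟩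

/-- the orbit and the bad region -/
theorem not_bad_iff (a K s t : ℝ) (k : ℕ) :
    (S a)^[k] ((t : UnitAddCircle), (s : UnitAddCircle)) ∉ Bad a K ↔
      K ≤ |L a (X a s (k + 1) t) * L a (X a s k t)| := by
  rw [iter_coe]
  unfold Bad
  show ¬ (|cc a (X a s (k + 1) t : UnitAddCircle) * cc a (X a s k t : UnitAddCircle)| < K) ↔ _
  rw [cc_coe, cc_coe, not_lt]

/-- **growth outside the bad region** -/
theorem norm_growth {a K : ℝ} (hK : 4 ≤ K) {s t : ℝ} {n : ℕ}
    (h : ∀ k, 1 ≤ k → k < n → (S a)^[k] ((t : UnitAddCircle), (s : UnitAddCircle)) ∉ Bad a K) :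
    (K / 4) ^ (n / 2) ≤ ‖fderiv ℝ (pm a)^[n] (t, s)‖ := by
  have hg : ∀ j, 1 ≤ j → j < n → K ≤ |L a (X a s j t) * L a (X a s (j + 1) t)| := by
    intro j h1 h2
    have := (not_bad_iff a K s t j).1 (h j h1 h2)
    rwa [mul_comm] at this
  have h1 : (K / 4) ^ (n / 2) ≤ |D a s (2 * (n / 2) + 1) t| := by
    by_cases hn : n < 2
    · have e : n / 2 = 0 := Nat.div_eq_of_lt hn
      rw [e, pow_zero]
      show 1 ≤ |(1:ℝ)|
      simp
    · have hg1 : L a (X a s 1 t) ≠ 0 := by
        intro h0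
        have := hg 1 le_rfl (by omega)
        rw [h0, zero_mul, abs_zero] at this
        linarith
      exact rec_growth (g := fun j => L a (X a s j t)) (d := fun j => D a s j t) rfl rfl
        (fun k => rfl) hK hg1 hg (n / 2) (Nat.mul_div_le n 2)
  refine h1.trans ?_
  obtain ⟨h2, h3⟩ := norm_ge a s t n
  rcases Nat.mod_two_eq_zero_or_one n with h0 | h0
  · have e : 2 * (n / 2) + 1 = n + 1 := by omega
    rw [e]
    exact h2
  · have e : 2 * (n / 2) + 1 = n := by omega
    rw [e]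
    exact h3

theorem log_M {a : ℝ} (ha : 1 ≤ |a|) : log (2 + 2 * π * |a|) ≤ 9 / 4 + log |a| := by
  have hpi := pi_pos
  have hpi4 := pi_lt_d2
  have ha0 : 0 < |a| := by linarith
  have h1 : 2 + 2 * π * |a| ≤ exp (9 / 4) * |a| := by
    have h2 : 2 + 2 * π ≤ exp (9 / 4) := by
      have h3 : (2.7182818283 : ℝ) < exp 1 := Real.exp_one_gt_d9
      have h4 : exp (9 / 4 : ℝ) = exp 1 * exp 1 * exp (1 / 4) := by
        rw [← Real.exp_add, ← Real.exp_add]
        norm_num
      have h5 : (1 / 4 : ℝ) + 1 ≤ exp (1 / 4) := Real.add_one_le_exp _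
      have h6 : (7.38 : ℝ) ≤ exp 1 * exp 1 := by nlinarith
      rw [h4]
      nlinarith
    calc 2 + 2 * π * |a| ≤ (2 + 2 * π) * |a| := by nlinarith
      _ ≤ _ := mul_le_mul_of_nonneg_right h2 ha0.le
  calc log (2 + 2 * π * |a|) ≤ log (exp (9 / 4) * |a|) :=
        Real.log_le_log (by positivity) h1
    _ = 9 / 4 + log |a| := by
      rw [Real.log_mul (Real.exp_pos _).ne' ha0.ne', Real.log_exp]

/-- the logarithm of the slope and `hh` -/
theorem hh_sub_log {a : ℝ} (ha : 1 ≤ |a|) {x : ℝ} (hx : 1 ≤ |L a x| * (2 + 2 * π * |a|)) :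
    hh a x - log |L a x| ≤ 6 * (1 + log |a|) * (1 / (1 + L a x ^ 2)) := by
  have hpi := pi_pos
  have ha0 : 0 < |a| := by linarith
  have hla : 0 ≤ log |a| := Real.log_nonneg ha
  have hM0 : 0 < 2 + 2 * π * |a| := by positivity
  set u := |L a x| with hu
  have hu0 : 0 < u := by
    rcases (abs_nonneg (L a x)).lt_or_eq with h | h
    · exact h
    · rw [← hu] at h
      rw [← h, zero_mul] at hx
      linarith
  have hsq : L a x ^ 2 = u ^ 2 := (sq_abs _).symm
  unfold hh
  rw [hsq]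
  have hlogsq : log u = log (u ^ 2) / 2 := by
    rw [Real.log_pow]
    push_cast
    ring
  by_cases h1 : 1 ≤ u
  · have h2 : log (1 + u ^ 2) - log (u ^ 2) ≤ 1 / u ^ 2 := by
      rw [← Real.log_div (by positivity) (by positivity)]
      have h3 := Real.log_le_sub_one_of_pos (show 0 < (1 + u ^ 2) / u ^ 2 by positivity)
      refine h3.trans (le_of_eq ?_)
      field_simp
      ring
    have h4 : 1 / u ^ 2 ≤ 2 * (1 / (1 + u ^ 2)) := by
      rw [mul_one_div, div_le_div_iff₀ (by positivity) (by positivity)]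
      nlinarith
    have h5 : 1 * (1 / (1 + u ^ 2)) ≤ 6 * (1 + log |a|) * (1 / (1 + u ^ 2)) := by
      apply mul_le_mul_of_nonneg_right _ (by positivity)
      linarith
    rw [hlogsq]
    linarith
  · rw [not_le] at h1
    have h2 : log (1 + u ^ 2) ≤ log 2 := Real.log_le_log (by positivity) (by nlinarith)
    have h3 := Real.log_two_lt_d9
    have h4 : -log u ≤ 9 / 4 + log |a| := by
      have h5 : log (1 / (2 + 2 * π * |a|)) ≤ log u := by
        apply Real.log_le_log (by positivity)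
        rw [div_le_iff₀ hM0]
        exact hx
      rw [Real.log_div one_ne_zero hM0.ne', Real.log_one] at h5
      have := log_M ha
      linarith
    have h6 : 1 / 2 ≤ 1 / (1 + u ^ 2) := by
      apply div_le_div_of_nonneg_left (by norm_num) (by positivity)
      nlinarith
    have h7 : 6 * (1 + log |a|) * (1 / 2) ≤ 6 * (1 + log |a|) * (1 / (1 + u ^ 2)) :=
      mul_le_mul_of_nonneg_left h6 (by linarith)
    linarith

/-- the lower bound of the derivative -/
theorem expo_low {a : ℝ} (ha : 1 ≤ |a|) {K : ℝ} (hK : 4 ≤ K) {n : ℕ} {s t : ℝ}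
    (h : ∀ k, k < n → (S a)^[k] ((t : UnitAddCircle), (s : UnitAddCircle)) ∉ Bad a K) :
    (∑ k ∈ Finset.range n, hh a (X a s (k + 1) t)) -
      6 * (1 + log |a|) * (∑ k ∈ Finset.range n, 1 / (1 + L a (X a s (k + 1) t) ^ 2)) -
        4 / K * n ≤ log ‖fderiv ℝ (pm a)^[n] (t, s)‖ := by
  have ha0 : 0 < |a| := by linarith
  have hpi := pi_pos
  rcases Nat.eq_zero_or_pos n with hn | hn
  · subst hn
    have : fderiv ℝ (pm a)^[0] (t, s) = ContinuousLinearMap.id ℝ (ℝ × ℝ) := fderiv_id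
    rw [this, ContinuousLinearMap.norm_id]
    simp
  have hpair : ∀ k, k < n → K ≤ |L a (X a s (k + 1) t) * L a (X a s k t)| :=
    fun k hk => (not_bad_iff a K s t k).1 (h k hk)
  have hLM : ∀ x, |L a x| ≤ 2 + 2 * π * |a| := by
    intro x
    have := cc_le a (x : UnitAddCircle)
    rwa [cc_coe] at this
  have hx : ∀ k, k < n → 1 ≤ |L a (X a s (k + 1) t)| * (2 + 2 * π * |a|) := by
    intro k hk
    have h1 := hpair k hk
    rw [abs_mul] at h1
    calc (1:ℝ) ≤ K := by linarith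
      _ ≤ |L a (X a s (k + 1) t)| * |L a (X a s k t)| := h1
      _ ≤ _ := mul_le_mul_of_nonneg_left (hLM _) (abs_nonneg _)
  have hg1 : L a (X a s 1 t) ≠ 0 := by
    intro h0
    have := hx 0 hn
    rw [zero_add, h0, abs_zero, zero_mul] at this
    linarith
  have hg : ∀ j, 1 ≤ j → j < n → K ≤ |L a (X a s j t) * L a (X a s (j + 1) t)| := by
    intro j h1 h2
    have := hpair j h2
    rwa [mul_comm] at this
  have hstep := rec_step (g := fun j => L a (X a s j t)) (d := fun j => D a s j t) rfl rfl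
    (fun k => rfl) hK hg1 hg n hn le_rfl
  have hlog := rec_log (g := fun j => L a (X a s j t)) (d := fun j => D a s j t) rfl rfl
    (fun k => rfl) hK hg1 hg n le_rfl
  have hDn : D a s (n + 1) t ≠ 0 := by
    intro h0
    obtain ⟨b1, b2, b3⟩ := hstep
    rw [h0, zero_sub, abs_neg] at b3
    have hK0 : 0 < K := by linarith
    have h2K : 2 / K ≤ 1 / 2 := by
      rw [div_le_div_iff₀ hK0 (by norm_num)]
      linarith
    have b4 : 0 < |L a (X a s n t) * D a s n t| := abs_pos.2 (mul_ne_zero b2 b1)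
    nlinarith
  have h5 : log |D a s (n + 1) t| ≤ log ‖fderiv ℝ (pm a)^[n] (t, s)‖ :=
    Real.log_le_log (abs_pos.2 hDn) (norm_ge a s t n).1
  have h6 := (abs_le.1 hlog).1
  have h7 : ∑ k ∈ Finset.range n, (hh a (X a s (k + 1) t) - log |L a (X a s (k + 1) t)|) ≤
      ∑ k ∈ Finset.range n, 6 * (1 + log |a|) * (1 / (1 + L a (X a s (k + 1) t) ^ 2)) :=
    Finset.sum_le_sum fun k hk => hh_sub_log ha (hx k (Finset.mem_range.1 hk))
  rw [Finset.sum_sub_distrib, ← Finset.mul_sum] at h7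
  linarith

end Pool.Agent.Run7.h425.SM
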