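import Pool.Agent.Run7.h425.SM.Max

set_option autoImplicit false

/-!
# The finite-time exponents of the standard map at all times simultaneously
-/

namespace Pool.Agent.Run7.h425.SM

open Real MeasureTheory Function Pool.Agent.TH705.SM
open Pool.Agent.V1152.SMI (cc cc_coe cc_cont cc_le Lper pm pm' pm_hasFDeriv pm_iter_fderiv ff
  ff_cont ff_period ff_bound ff_mean norm_bound K1_nonneg)
open Pool.Agent.V11103 (ergAv maximal)

/-- the visits to the critical strips, at all times -/
theorem strip_max {a : ℝ} (ha : 16 ≤ |a|) {η : ℝ} (hη : 0 < η) :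
    ∃ U : Set T2, MeasurableSet U ∧ volume.real U ≤ 4 / (|a| * η) ∧ ∀ p, p ∉ U → ∀ n : ℕ,
      ∑ k ∈ Finset.range n, 1 / (1 + cc a (((S a)^[k] p).1) ^ 2) ≤ n * η := by
  have ha0 : 0 < |a| := by linarith
  set e : UnitAddCircle → ℝ := fun x => 1 / (1 + cc a x ^ 2) with he
  have hec : Continuous e := continuous_const.div (continuous_const.add ((cc_cont a).pow 2))
    fun x => by positivity
  have he0 : ∀ x, 0 ≤ e x := fun x => by
    rw [he]
    positivity
  have hint : ∫ x, e x ≤ 4 / |a| := by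
    rw [← UnitAddCircle.intervalIntegral_preimage 0, zero_add]
    have h3 := ee_int (a := a) (l := 16) le_rfl ha
    have eec : Continuous (ee a 16) := ee_cont a (by norm_num)
    have h1 : ∫ x in (0:ℝ)..1, e (x : UnitAddCircle) ≤ ∫ x in (0:ℝ)..1, 256 / |a| * ee a 16 x := by
      apply intervalIntegral.integral_mono_on (by norm_num)
      · exact (hec.comp (AddCircle.continuous_mk' 1)).intervalIntegrable _ _
      · exact (continuous_const.mul eec).intervalIntegrable _ _
      intro x _
      show 1 / (1 + cc a (x : UnitAddCircle) ^ 2) ≤ _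
      rw [cc_coe]
      unfold ee
      have e : 256 / |a| * (|a| / (L a x ^ 2 + 16 ^ 2)) = 256 / (L a x ^ 2 + 16 ^ 2) := by
        field_simp
      rw [e, div_le_div_iff₀ (by positivity) (by positivity)]
      nlinarith [sq_nonneg (L a x)]
    rw [intervalIntegral.integral_const_mul] at h1
    refine h1.trans ?_
    calc 256 / |a| * ∫ x in (0:ℝ)..1, ee a 16 x ≤ 256 / |a| * (1 / (4 * 16)) :=
          mul_le_mul_of_nonneg_left h3 (by positivity)
      _ = 4 / |a| := by ring
  set f : T2 → ℝ := fun q => e q.1 with hf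
  have hfc : Continuous f := hec.comp continuous_fst
  have hfi : ∫ q, |f q| ≤ 4 / |a| := by
    have e1 : ∀ q : T2, |f q| = e q.1 := fun q => abs_of_nonneg (he0 _)
    simp_rw [e1]
    have h6 := integral_prod_mul (μ := (volume : Measure UnitAddCircle))
      (ν := (volume : Measure UnitAddCircle)) e (fun _ => (1:ℝ))
    simp only [mul_one] at h6
    have h7 : ∫ _ : UnitAddCircle, (1:ℝ) = 1 := by simp
    rw [h7, mul_one] at h6
    exact h6.trans_le hint
  have hmax := maximal (S_mp a) hfc.measurable (integrable_cont hfc) hη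
  set U : Set T2 := {x | ∃ k, η < ergAv (S a) f k x} with hU
  have mU : MeasurableSet U := by
    have e : U = ⋃ k : ℕ, {x | η < ergAv (S a) f k x} := by
      ext x
      simp only [hU, Set.mem_ofPred_eq, Set.mem_iUnion]
    rw [e]
    refine MeasurableSet.iUnion fun k => ?_
    exact measurableSet_lt measurable_const
      (V11103.ergAv_meas (S_mp a).measurable hfc.measurable k)
  refine ⟨U, mU, ?_, ?_⟩
  · rw [measureReal_def]
    refine (ENNReal.toReal_le_of_le_ofReal (by positivity) hmax).trans ?_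
    calc (∫ q, |f q|) / η ≤ 4 / |a| / η := div_le_div_of_nonneg_right hfi hη.le
      _ = 4 / (|a| * η) := by rw [div_div]
  · intro p hp n
    have h2 : ergAv (S a) f n p ≤ η := by
      by_contra hcon
      rw [not_le] at hcon
      exact hp ⟨n, hcon⟩
    rcases Nat.eq_zero_or_pos n with hn | hn
    · subst hn
      simp
    have hn' : (0 : ℝ) < n := by exact_mod_cast hn
    unfold V11103.ergAv at h2
    rw [one_div, ← div_eq_inv_mul, div_le_iff₀ hn'] at h2
    calc ∑ k ∈ Finset.range n, 1 / (1 + cc a (((S a)^[k] p).1) ^ 2) =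
        ∑ k ∈ Finset.range n, f ((S a)^[k] p) := rfl
      _ ≤ η * n := h2
      _ = n * η := mul_comm _ _

/-- the constant -/
noncomputable def C3 : ℝ := 224 + 1024 * √C1

theorem C3_ge : 16 ≤ C3 := by
  have := Real.sqrt_nonneg C1
  unfold C3
  linarith

/-- the error -/
noncomputable def RS (a : ℝ) (n0 N : ℕ) (δ : ℝ) : ℝ :=
  (1 + log |a|) ^ 2 / δ ^ 2 * (N / |a| ^ 2 + 1 / √n0 + |a| ^ (-(1 / 6) : ℝ))

/-- **the finite-time exponents, at all times simultaneously** -/
theorem expo_all {a : ℝ} (ha : 1 ≤ |a|) {n0 : ℕ} (hn0 : 1 ≤ n0) (N : ℕ) {δ : ℝ} (hδ : 0 < δ)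
    (hδ1 : δ ≤ 1) :
    ∃ U : Set T2, MeasurableSet U ∧ volume.real U ≤ C3 * RS a n0 N δ ∧ ∀ s t : ℝ,
      ((t : UnitAddCircle), (s : UnitAddCircle)) ∉ U → ∀ n : ℕ, n0 ≤ n → n ≤ N →
        |log ‖fderiv ℝ (pm a)^[n] (t, s)‖ / n - log (π * |a|)| ≤ δ := by
  have hn00 : (0 : ℝ) < n0 := by exact_mod_cast hn0
  have ha0 : 0 < |a| := by linarith
  have hC1 := C1_pos
  have hsC1 := Real.sqrt_nonneg C1
  have hC3 := C3_ge
  have hla : 0 ≤ log |a| := Real.log_nonneg ha
  set Λ := 1 + log |a| with hΛ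
  have hΛ1 : 1 ≤ Λ := by linarith
  have hΛ0 : 0 < Λ := by linarith
  set w := |a| ^ (-(1 / 6) : ℝ) with hw
  have hw0 : 0 < w := Real.rpow_pos_of_pos ha0 _
  have hw2 : |a| ^ (-(1 / 3) : ℝ) = w ^ 2 := by
    rw [hw, ← Real.rpow_natCast, ← Real.rpow_mul ha0.le]
    norm_num
  have hwa : 1 / |a| ≤ w := by
    rw [hw, one_div, ← Real.rpow_neg_one]
    exact Real.rpow_le_rpow_of_exponent_le ha (by norm_num)
  set z : ℝ := Λ / δ with hz
  have hz1 : 1 ≤ z := by
    rw [hz, le_div_iff₀ hδ]
    linarith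
  have hz0 : 0 < z := by linarith
  set v : ℝ := 1 / √n0 with hv
  have hsn : 0 < √(n0 : ℝ) := Real.sqrt_pos.2 hn00
  have hv0 : 0 < v := by positivity
  have hRS : RS a n0 N δ = z ^ 2 * (N / |a| ^ 2 + v + w) := by
    unfold RS
    rw [hz, div_pow]
  have hNa : 0 ≤ (N : ℝ) / |a| ^ 2 := by positivity
  -- the trivial cases
  have triv : 1 / 16 ≤ RS a n0 N δ → ∃ U : Set T2, MeasurableSet U ∧
      volume.real U ≤ C3 * RS a n0 N δ ∧ ∀ s t : ℝ,
      ((t : UnitAddCircle), (s : UnitAddCircle)) ∉ U → ∀ n : ℕ, n0 ≤ n → n ≤ N →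
        |log ‖fderiv ℝ (pm a)^[n] (t, s)‖ / n - log (π * |a|)| ≤ δ := by
    intro h
    refine ⟨Set.univ, MeasurableSet.univ, ?_, fun s t h' => absurd (Set.mem_univ _) h'⟩
    have h1 : volume.real (Set.univ : Set T2) ≤ 1 := measureReal_le_one
    nlinarith
  by_cases hA : (n0 : ℝ) < 128 * z
  · apply triv
    rw [hRS]
    have h1 : √(n0 : ℝ) ≤ 12 * z := by
      apply Real.sqrt_le_iff.2
      refine ⟨by positivity, ?_⟩
      nlinarith
    have h2 : 1 / (12 * z) ≤ v := div_le_div_of_nonneg_left zero_le_one hsn h1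
    calc (1:ℝ) / 16 ≤ z / 12 := by linarith
      _ = z ^ 2 * (1 / (12 * z)) := by
          field_simp
      _ ≤ z ^ 2 * (N / |a| ^ 2 + v + w) := by
          apply mul_le_mul_of_nonneg_left _ (by positivity)
          linarith
  by_cases hB : |a| < 16 * z
  · apply triv
    rw [hRS]
    have h1 : 1 / (16 * z) ≤ w := by
      refine le_trans ?_ hwa
      exact div_le_div_of_nonneg_left zero_le_one ha0 hB.le
    calc (1:ℝ) / 16 ≤ z / 16 := by linarith
      _ = z ^ 2 * (1 / (16 * z)) := by
          field_simp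
      _ ≤ z ^ 2 * (N / |a| ^ 2 + v + w) := by
          apply mul_le_mul_of_nonneg_left _ (by positivity)
          linarith
  rw [not_lt] at hA hB
  have ha16 : 16 ≤ |a| := by nlinarith
  set K : ℝ := 16 / δ with hK
  have hK16 : 16 ≤ K := by
    rw [hK, le_div_iff₀ hδ]
    linarith
  set η : ℝ := δ / (24 * Λ) with hη
  have hη0 : 0 < η := by positivity
  have hhb : ∀ x, |hh a x| ≤ 4 * Λ := by
    intro x
    obtain ⟨h1, h2⟩ := hh_bound ha x
    rw [abs_of_nonneg h1]
    linarith
  have hδ4 : 0 < δ / 4 := by positivity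
  have hM : 0 < 4 * Λ := by positivity
  have hcond : 8 * (4 * Λ) ≤ δ / 4 * n0 := by
    have h1 : 128 * Λ ≤ n0 * δ := by
      have h2 : 128 * (Λ / δ) * δ ≤ n0 * δ := mul_le_mul_of_nonneg_right hA hδ.le
      have e : 128 * (Λ / δ) * δ = 128 * Λ := by field_simp
      linarith
    linarith
  obtain ⟨H, mH, vH, hH⟩ := dev_max ha (hh_cont a) (hh_period a) hM hhb hδ4 hcond
  obtain ⟨G, mG, vG, hG⟩ := dev_max ha (ff_cont a) (ff_period a) hM (ff_bound ha) hδ4 hcond
  obtain ⟨E, mE, vE, hE⟩ := strip_max ha16 hη0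
  set V : Set T2 := {p : T2 | ∃ k, k < N ∧ (S a)^[k] p ∈ Bad a K} with hV
  have mV : MeasurableSet V := by
    have e : V = ⋃ k : ℕ, ⋃ _ : k < N, (S a)^[k] ⁻¹' Bad a K := by
      ext p
      simp only [hV, Set.mem_ofPred_eq, Set.mem_iUnion, Set.mem_preimage, exists_prop]
    rw [e]
    exact MeasurableSet.iUnion fun k => MeasurableSet.iUnion fun _ =>
      ((S_cont a).iterate k).measurable (Bad_meas a K)
  have hzz : z ≤ z ^ 2 := by nlinarith
  have v1 : volume.real V ≤ 128 * RS a n0 N δ := by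
    refine (visits ha (by linarith) N).trans ?_
    rw [hRS, hK]
    have e : (N : ℝ) * (8 * (16 / δ) * (1 + log |a|) / |a| ^ 2) =
        128 * (z * (N / |a| ^ 2)) := by
      rw [← hΛ, hz]
      field_simp
      ring
    rw [e]
    apply mul_le_mul_of_nonneg_left _ (by norm_num)
    exact mul_le_mul hzz (by linarith) hNa (by positivity)
  have key : 2 * √C1 * (4 * Λ / (δ / 4)) *
      √(16 * (4 * Λ / (δ / 4 * n0)) + |a| ^ (-(1 / 3) : ℝ)) ≤ 512 * √C1 * RS a n0 N δ := by
    have e1 : 4 * Λ / (δ / 4) = 16 * z := by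
      rw [hz]
      field_simp
      norm_num
    have e2 : 16 * (4 * Λ / (δ / 4 * n0)) = 256 * z * v ^ 2 := by
      rw [hz, hv, div_pow, Real.sq_sqrt hn00.le]
      field_simp
      norm_num
    rw [e1, e2, hw2]
    have h1 : √(256 * z * v ^ 2 + w ^ 2) ≤ 16 * z * (v + w) := by
      apply Real.sqrt_le_iff.2
      refine ⟨by positivity, ?_⟩
      have h2 : 256 * z * v ^ 2 ≤ 256 * z ^ 2 * v ^ 2 := by
        apply mul_le_mul_of_nonneg_right _ (by positivity)
        linarith
      have h3 : w ^ 2 ≤ 256 * z ^ 2 * w ^ 2 := by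
        have : 1 ≤ z ^ 2 := by nlinarith
        nlinarith [sq_nonneg w]
      have h4 : (16 * z * (v + w)) ^ 2 = 256 * z ^ 2 * v ^ 2 + 256 * z ^ 2 * w ^ 2 +
          512 * z ^ 2 * (v * w) := by ring
      have h5 : 0 ≤ 512 * z ^ 2 * (v * w) := by positivity
      linarith
    calc 2 * √C1 * (16 * z) * √(256 * z * v ^ 2 + w ^ 2)
        ≤ 2 * √C1 * (16 * z) * (16 * z * (v + w)) :=
          mul_le_mul_of_nonneg_left h1 (by positivity)
      _ = 512 * √C1 * (z ^ 2 * (v + w)) := by ring
      _ ≤ 512 * √C1 * RS a n0 N δ := by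
          rw [hRS]
          apply mul_le_mul_of_nonneg_left _ (by positivity)
          apply mul_le_mul_of_nonneg_left _ (by positivity)
          linarith
  have v4 : volume.real E ≤ 96 * RS a n0 N δ := by
    refine vE.trans ?_
    rw [hRS, hη]
    have e : 4 / (|a| * (δ / (24 * Λ))) = 96 * (z * (1 / |a|)) := by
      rw [hz]
      field_simp
      ring
    rw [e]
    apply mul_le_mul_of_nonneg_left _ (by norm_num)
    exact mul_le_mul hzz (by linarith) (by positivity) (by positivity)
  refine ⟨((V ∪ H) ∪ G) ∪ E, ((mV.union mH).union mG).union mE, ?_, ?_⟩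
  · refine (measureReal_union_le _ _).trans ?_
    have h1 := measureReal_union_le (μ := (volume : Measure T2)) (V ∪ H) G
    have h2 := measureReal_union_le (μ := (volume : Measure T2)) V H
    have e : C3 * RS a n0 N δ = 128 * RS a n0 N δ + 512 * √C1 * RS a n0 N δ +
        512 * √C1 * RS a n0 N δ + 96 * RS a n0 N δ := by
      unfold C3
      ring
    rw [e]
    linarith
  · intro s t hU n hnn hnN
    simp only [Set.mem_union, not_or] at hU
    obtain ⟨⟨⟨hUV, hUH⟩, hUG⟩, hUE⟩ := hU
    have hlo : ∀ k, k < n → (S a)^[k] ((t : UnitAddCircle), (s : UnitAddCircle)) ∉ Bad a K :=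
      fun k hk h => hUV ⟨k, by omega, h⟩
    have hlow := expo_low ha (by linarith : 4 ≤ K) hlo
    rw [← hΛ] at hlow
    have hup := norm_bound a (t, s) n
    have hUH' := hH _ hUH n hnn
    have hUG' := hG _ hUG n hnn
    have hUE' := hE _ hUE n
    have e1 : ∀ k, (hh_period a).lift (((S a)^[k] ((t : UnitAddCircle), (s : UnitAddCircle))).1) =
        hh a (X a s (k + 1) t) := by
      intro k
      rw [iter_coe]
      exact (hh_period a).lift_coe _
    have e2 : ∀ k, (ff_period a).lift (((S a)^[k] ((t : UnitAddCircle), (s : UnitAddCircle))).1) =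
        ff a (X a s (k + 1) t) := by
      intro k
      rw [iter_coe]
      exact (ff_period a).lift_coe _
    have e3 : ∀ k, cc a (((S a)^[k] ((t : UnitAddCircle), (s : UnitAddCircle))).1) =
        L a (X a s (k + 1) t) := by
      intro k
      rw [iter_coe]
      exact cc_coe a _
    simp only [e1] at hUH'
    simp only [e2] at hUG'
    simp only [e3] at hUE'
    simp only [iter_pm] at hup
    rw [Finset.sum_sub_distrib, Finset.sum_const, Finset.card_range, nsmul_eq_mul] at hUH' hUG'
    have m1 : log (π * |a|) ≤ ∫ x in (0:ℝ)..1, hh a x := by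
      have := (hmean_near ha).1
      have e : hmean a = ∫ x in (0:ℝ)..1, hh a x := rfl
      rw [e] at this
      linarith
    obtain ⟨-, m2⟩ := ff_mean ha16
    have hln2 := Real.log_two_lt_d9
    have hnn' : (n0 : ℝ) ≤ n := by exact_mod_cast hnn
    have hn0' : (0 : ℝ) < n := by linarith
    set Sh := ∑ k ∈ Finset.range n, hh a (X a s (k + 1) t) with hSh
    set Sf := ∑ k ∈ Finset.range n, ff a (X a s (k + 1) t) with hSf
    set Se := ∑ k ∈ Finset.range n, 1 / (1 + L a (X a s (k + 1) t) ^ 2) with hSe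
    set Y := log ‖fderiv ℝ (pm a)^[n] (t, s)‖ with hY
    have h1 := (abs_le.1 hUH').1
    have h2 := (abs_le.1 hUG').2
    have e5 : (n : ℝ) * (δ / 4) = n * δ / 4 := by ring
    have h3 : 6 * Λ * Se ≤ n * δ / 4 := by
      have h4 : 6 * Λ * Se ≤ 6 * Λ * (n * η) := mul_le_mul_of_nonneg_left hUE' (by positivity)
      have h5 : 6 * Λ * (n * η) = n * δ / 4 := by
        rw [hη]
        field_simp
        ring
      linarith
    have h6 : 4 / K * n = n * δ / 4 := by
      rw [hK]
      field_simp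
      ring
    have h7 : 3 / |a| ≤ δ / 4 := by
      have h8 : 16 ≤ |a| * δ := by
        have h9 : 16 * (Λ / δ) * δ ≤ |a| * δ := mul_le_mul_of_nonneg_right hB hδ.le
        have e : 16 * (Λ / δ) * δ = 16 * Λ := by field_simp
        linarith
      rw [div_le_iff₀ ha0]
      have e : δ / 4 * |a| = |a| * δ / 4 := by ring
      rw [e]
      linarith
    have h8 : log 2 / 2 ≤ n * δ / 4 := by
      have h9 : (n0 : ℝ) * δ ≤ n * δ := mul_le_mul_of_nonneg_right hnn' hδ.le
      linarith
    have h9 : 0 ≤ (n : ℝ) * δ := by positivity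
    rw [e5] at h1 h2
    have hlowY : n * log (π * |a|) - n * δ ≤ Y := by
      have : n * log (π * |a|) ≤ n * ∫ x in (0:ℝ)..1, hh a x :=
        mul_le_mul_of_nonneg_left m1 hn0'.le
      linarith
    have hupY : Y ≤ n * log (π * |a|) + n * δ := by
      have h9 : n * ∫ x in (0:ℝ)..1, ff a x ≤ n * (log (π * |a|) + 3 / |a|) :=
        mul_le_mul_of_nonneg_left m2 hn0'.le
      have h10 : (n : ℝ) * (3 / |a|) ≤ n * (δ / 4) := mul_le_mul_of_nonneg_left h7 hn0'.le
      have e6 : (n : ℝ) * (log (π * |a|) + 3 / |a|) = n * log (π * |a|) + n * (3 / |a|) := by ring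
      rw [e6] at h9
      rw [e5] at h10
      linarith
    rw [abs_le]
    constructor
    · have : log (π * |a|) - δ ≤ Y / n := by
        rw [le_div_iff₀ hn0']
        have e : (log (π * |a|) - δ) * n = n * log (π * |a|) - n * δ := by ring
        rw [e]
        exact hlowY
      linarith
    · have : Y / n ≤ log (π * |a|) + δ := by
        rw [div_le_iff₀ hn0']
        have e : (log (π * |a|) + δ) * n = n * log (π * |a|) + n * δ := by ring
        rw [e]
        exact hupY
      linarith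

end Pool.Agent.Run7.h425.SM
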