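import Pool.Agent.Run7.h425.SM.Final2

set_option autoImplicit false

/-!
# The standard map is hyperbolic up to times `|a|^(2-ε)`, for every parameter

`S_a (x, y) = (2x - y + a sin 2πx, x)` on the torus.  For every `a` with `|a| ≥ 1`, outside a set of
measure `C (1 + log |a|)² δ⁻² (K N / |a|² + n₀^(-1/2) + |a|^(-1/6))` the orbit segment of length `N`
is uniformly hyperbolic (along each of its parts of length `m` the derivative grows at least by the
factor `(K/4)^(m/2)`) and the finite-time exponents `(1/n) log ‖DS_a^n‖` are `log (π|a|)`, up to `δ`,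
at all times `n₀ ≤ n ≤ N` simultaneously.  So this holds, outside a small set, for
`|a|^ε ≤ n ≤ |a|^(2-ε)`; no parameter is excluded.  The uniform hyperbolicity can only be lost at
the visits to the region where the product of the upper left entries of `DS_a` at two consecutive
points is smaller than a constant; its area is `O(log |a| / |a|²)`, while the usual neighbourhoods
of the critical lines have area `≈ 1 / |a|`.
-/

open Real MeasureTheory

namespace Pool.Agent.Results.MP_9ee088_an.LongTimeHyperbolicity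

/-- The torus `ℝ² / ℤ²`, with its normalised Lebesgue measure `volume`. -/
abbrev Torus := UnitAddCircle × UnitAddCircle

/-- The covering map from the plane to the torus. -/
noncomputable def proj (q : ℝ × ℝ) : Torus := ((q.1 : UnitAddCircle), (q.2 : UnitAddCircle))

/-- The lift `(x, y) ↦ (2x - y + a sin 2πx, x)` of `S_a` to the plane. -/
noncomputable def planeMap (a : ℝ) (q : ℝ × ℝ) : ℝ × ℝ :=
  (2 * q.1 - q.2 + a * sin (2 * π * q.1), q.1)

/-- The upper left entry `2 + 2πa cos 2πx` of `DS_a` at `(x, y)`. -/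
noncomputable def slope (a x : ℝ) : ℝ := 2 + 2 * π * a * cos (2 * π * x)

/-- The finite-time exponent `(1/n) log ‖DS_a^n‖` at the point `q` of the plane. -/
noncomputable def exponent (a : ℝ) (n : ℕ) (q : ℝ × ℝ) : ℝ :=
  log ‖fderiv ℝ (planeMap a)^[n] q‖ / n

/-- The orbit segment of length `n` of `q` is uniformly hyperbolic with the constant `K`: along each
of its parts, from the time `j` to the time `j + m`, the derivative grows at least by `(K/4)^(m/2)`
(the exponent is rounded down). -/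
def Expands (a K : ℝ) (n : ℕ) (q : ℝ × ℝ) : Prop :=
  ∀ j m : ℕ, j + m ≤ n → (K / 4) ^ (m / 2) ≤ ‖fderiv ℝ (planeMap a)^[m] ((planeMap a)^[j] q)‖

theorem proj_iter (a : ℝ) (q : ℝ × ℝ) (k : ℕ) :
    proj ((planeMap a)^[k] q) = (TH705.SM.S a)^[k] (proj q) := by
  induction k with
  | zero => rfl
  | succ k ih =>
    rw [Function.iterate_succ_apply', Function.iterate_succ_apply', ← ih]
    exact (TH705.SM.S_coe a ((planeMap a)^[k] q).1 ((planeMap a)^[k] q).2).symm

/-- **Hyperbolicity of the standard map up to times `|a|^(2-ε)`, for every parameter.** -/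
theorem result :
    -- (1) expansion outside the visits to the region where the product of two slopes is small
    (∀ (a K : ℝ), 4 ≤ K → ∀ (n : ℕ) (q : ℝ × ℝ),
      (∀ k, k < n → K ≤ |slope a ((planeMap a)^[k] q).1 * slope a ((planeMap a)^[k] q).2|) →
        Expands a K n q) ∧
    -- (2) expansion and the exponent `log (π|a|)` for most orbit segments, at all times
    ∃ C : ℝ, 0 < C ∧ ∀ a : ℝ, 1 ≤ |a| → ∀ (n₀ N : ℕ) (δ K : ℝ), 1 ≤ n₀ → 0 < δ → δ ≤ 1 → 4 ≤ K →
      ∃ Z : Set Torus, MeasurableSet Z ∧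
        volume.real Z ≤
          C * (1 + log |a|) ^ 2 / δ ^ 2 * (K * N / |a| ^ 2 + 1 / √n₀ + |a| ^ (-(1 / 6) : ℝ)) ∧
        ∀ q : ℝ × ℝ, proj q ∉ Z → Expands a K N q ∧
          ∀ n : ℕ, n₀ ≤ n → n ≤ N → |exponent a n q - log (π * |a|)| ≤ δ := by
  have key : ∀ (a K : ℝ), 4 ≤ K → ∀ (n : ℕ) (q : ℝ × ℝ),
      (∀ k, k < n → K ≤ |slope a ((planeMap a)^[k] q).1 * slope a ((planeMap a)^[k] q).2|) →
        Expands a K n q := by
    intro a K hK n q h j m hjm
    set q' := (planeMap a)^[j] q with hq'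
    apply Run7.h425.SM.norm_growth (s := q'.2) (t := q'.1) hK
    intro k _ hkm hbad
    have e : ((q'.1 : UnitAddCircle), (q'.2 : UnitAddCircle)) = proj q' := rfl
    rw [e, ← proj_iter, hq', ← Function.iterate_add_apply] at hbad
    have h1 : |V1152.SMI.cc a (((planeMap a)^[k + j] q).1 : UnitAddCircle) *
        V1152.SMI.cc a (((planeMap a)^[k + j] q).2 : UnitAddCircle)| < K := hbad
    rw [V1152.SMI.cc_coe, V1152.SMI.cc_coe] at h1
    exact absurd (h (k + j) (by omega)) (not_le.2 h1)
  refine ⟨key, 8 + Run7.h425.SM.C3, by linarith [Run7.h425.SM.C3_ge], ?_⟩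
  intro a ha n₀ N δ K hn hδ hδ1 hK
  have hC3 := Run7.h425.SM.C3_ge
  have ha0 : 0 < |a| := by linarith
  have hla : 0 ≤ log |a| := Real.log_nonneg ha
  have hn0 : (0 : ℝ) < n₀ := by exact_mod_cast hn
  obtain ⟨U, hU, hUv, hU2⟩ := Run7.h425.SM.expo_all ha hn N hδ hδ1
  set V : Set Torus := {p | ∃ k, k < N ∧ (TH705.SM.S a)^[k] p ∈ Run7.h425.SM.Bad a K} with hV
  have mV : MeasurableSet V := by
    have e : V = ⋃ k : ℕ, ⋃ _ : k < N, (TH705.SM.S a)^[k] ⁻¹' Run7.h425.SM.Bad a K := by
      ext p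
      simp only [hV, Set.mem_ofPred_eq, Set.mem_iUnion, Set.mem_preimage, exists_prop]
    rw [e]
    exact MeasurableSet.iUnion fun k => MeasurableSet.iUnion fun _ =>
      ((TH705.SM.S_cont a).iterate k).measurable (Run7.h425.SM.Bad_meas a K)
  have vV := Run7.h425.SM.visits ha (by linarith : 1 ≤ K) N
  refine ⟨V ∪ U, mV.union hU, ?_, ?_⟩
  · refine (measureReal_union_le _ _).trans ?_
    set w := |a| ^ (-(1 / 6) : ℝ) with hw
    have hw0 : 0 < w := Real.rpow_pos_of_pos ha0 _
    set v : ℝ := 1 / √n₀ with hv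
    have hv0 : 0 ≤ v := by positivity
    set Λ := 1 + log |a| with hΛ
    have hΛ1 : 1 ≤ Λ := by linarith
    have h1 : volume.real V ≤ 8 * (Λ ^ 2 / δ ^ 2 * (K * N / |a| ^ 2)) := by
      refine vV.trans ?_
      have e : (N : ℝ) * (8 * K * (1 + log |a|) / |a| ^ 2) = 8 * (Λ * (K * N / |a| ^ 2)) := by
        rw [← hΛ]
        ring
      rw [e]
      apply mul_le_mul_of_nonneg_left _ (by norm_num)
      apply mul_le_mul_of_nonneg_right _ (by positivity)
      rw [le_div_iff₀ (by positivity)]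
      have h2 : δ ^ 2 ≤ 1 := by nlinarith
      nlinarith
    have h2 : volume.real U ≤ Run7.h425.SM.C3 * (Λ ^ 2 / δ ^ 2 * (K * N / |a| ^ 2 + v + w)) := by
      refine hUv.trans ?_
      unfold Run7.h425.SM.RS
      apply mul_le_mul_of_nonneg_left _ (by linarith)
      apply mul_le_mul_of_nonneg_left _ (by positivity)
      have h3 : (N : ℝ) / |a| ^ 2 ≤ K * N / |a| ^ 2 := by
        apply div_le_div_of_nonneg_right _ (by positivity)
        have : (0 : ℝ) ≤ N := Nat.cast_nonneg N
        nlinarith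
      linarith
    have h4 : 8 * (Λ ^ 2 / δ ^ 2 * (K * N / |a| ^ 2)) ≤
        8 * (Λ ^ 2 / δ ^ 2 * (K * N / |a| ^ 2 + v + w)) := by
      apply mul_le_mul_of_nonneg_left _ (by norm_num)
      apply mul_le_mul_of_nonneg_left _ (by positivity)
      linarith
    have e : (8 + Run7.h425.SM.C3) * Λ ^ 2 / δ ^ 2 * (K * N / |a| ^ 2 + v + w) =
        8 * (Λ ^ 2 / δ ^ 2 * (K * N / |a| ^ 2 + v + w)) +
          Run7.h425.SM.C3 * (Λ ^ 2 / δ ^ 2 * (K * N / |a| ^ 2 + v + w)) := by ring
    rw [e]
    linarith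
  · intro q hq
    rw [Set.mem_union, not_or] at hq
    refine ⟨key a K hK N q fun k hk => ?_, ?_⟩
    · by_contra hcon
      rw [not_le] at hcon
      apply hq.1
      refine ⟨k, hk, ?_⟩
      rw [← proj_iter]
      show |V1152.SMI.cc a (((planeMap a)^[k] q).1 : UnitAddCircle) *
        V1152.SMI.cc a (((planeMap a)^[k] q).2 : UnitAddCircle)| < K
      rw [V1152.SMI.cc_coe, V1152.SMI.cc_coe]
      exact hcon
    · exact hU2 q.2 q.1 hq.2

end Pool.Agent.Results.MP_9ee088_an.LongTimeHyperbolicity
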