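import Pool.Agent.Run7.h425.SM.Prob
import Pool.Agent.V11103.MaxErg

set_option autoImplicit false

/-!
# Deviations at all times simultaneously
-/

namespace Pool.Agent.Run7.h425.SM

open Real MeasureTheory Function Pool.Agent.TH705.SM
open Pool.Agent.V1152.SMI (cc cc_coe cc_cont cc_le)
open Pool.Agent.V11103 (ergAv maximal)

theorem sq_int_le {G : T2 → ℝ} (hG : Continuous G) : (∫ x, G x) ^ 2 ≤ ∫ x, G x ^ 2 := by
  set m := ∫ x, G x with hm
  have h : 0 ≤ ∫ x, (G x - m) ^ 2 := integral_nonneg fun x => sq_nonneg _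
  have e : ∀ x, (G x - m) ^ 2 = G x ^ 2 - 2 * m * G x + m ^ 2 := fun x => by ring
  simp_rw [e] at h
  have i1 : Integrable (fun x : T2 => G x ^ 2) := integrable_cont (hG.pow 2)
  have i2 : Integrable (fun x : T2 => 2 * m * G x) := (integrable_cont hG).const_mul _
  have i3 : Integrable (fun x : T2 => G x ^ 2 - 2 * m * G x) := i1.sub i2
  have e1 : ∫ x : T2, (G x ^ 2 - 2 * m * G x + m ^ 2) =
      (∫ x : T2, G x ^ 2) - 2 * m * m + m ^ 2 := by
    rw [integral_add i3 (integrable_const _), integral_sub i1 i2, integral_const_mul, ← hm]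
    simp
  rw [e1] at h
  nlinarith

/-- a Birkhoff sum is controlled by the sums of length `q` -/
theorem block {X : Type*} (T : X → X) {f : X → ℝ} (hf2 : ∀ x, |f x| ≤ 2) {q : ℕ} (hq : 1 ≤ q)
    (n : ℕ) (x : X) : |∑ k ∈ Finset.range n, f (T^[k] x)| ≤
      (∑ j ∈ Finset.range n, |∑ k ∈ Finset.range q, f (T^[k] (T^[j] x))| / q) + 4 * q := by
  have hq0 : (0 : ℝ) < q := by exact_mod_cast hq
  have hS : ∀ m y, |∑ k ∈ Finset.range m, f (T^[k] y)| ≤ m * 2 := by
    intro m y
    refine (Finset.abs_sum_le_sum_abs _ _).trans ?_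
    refine (Finset.sum_le_sum fun k _ => hf2 _).trans ?_
    rw [Finset.sum_const, Finset.card_range, nsmul_eq_mul]
  have h1 : ∀ k, ∑ j ∈ Finset.range n, f (T^[k] (T^[j] x)) =
      (∑ j ∈ Finset.range n, f (T^[j] x)) +
        ((∑ i ∈ Finset.range k, f (T^[i] (T^[n] x))) - ∑ i ∈ Finset.range k, f (T^[i] x)) := by
    intro k
    have e1 : ∑ j ∈ Finset.range n, f (T^[k] (T^[j] x)) =
        ∑ j ∈ Finset.range n, f (T^[k + j] x) := by
      refine Finset.sum_congr rfl fun j _ => ?_
      rw [← iterate_add_apply]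
    have e2 := Finset.sum_range_add (fun i => f (T^[i] x)) k n
    have e3 := Finset.sum_range_add (fun i => f (T^[i] x)) n k
    have e4 : ∑ i ∈ Finset.range k, f (T^[i] (T^[n] x)) =
        ∑ i ∈ Finset.range k, f (T^[n + i] x) := by
      refine Finset.sum_congr rfl fun j _ => ?_
      rw [← iterate_add_apply, Nat.add_comm]
    rw [e1, e4]
    rw [Nat.add_comm k n, e3] at e2
    linarith
  have h2 : ∑ j ∈ Finset.range n, ∑ k ∈ Finset.range q, f (T^[k] (T^[j] x)) =
      q * (∑ j ∈ Finset.range n, f (T^[j] x)) +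
        ∑ k ∈ Finset.range q, ((∑ i ∈ Finset.range k, f (T^[i] (T^[n] x))) -
          ∑ i ∈ Finset.range k, f (T^[i] x)) := by
    rw [Finset.sum_comm]
    simp_rw [h1]
    rw [Finset.sum_add_distrib, Finset.sum_const, Finset.card_range, nsmul_eq_mul]
  have h3 : |∑ k ∈ Finset.range q, ((∑ i ∈ Finset.range k, f (T^[i] (T^[n] x))) -
          ∑ i ∈ Finset.range k, f (T^[i] x))| ≤ q * (4 * q) := by
    refine (Finset.abs_sum_le_sum_abs _ _).trans ?_
    calc _ ≤ ∑ k ∈ Finset.range q, 4 * (q : ℝ) := by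
          apply Finset.sum_le_sum
          intro k hk
          have h4 := hS k (T^[n] x)
          have h5 := hS k x
          have h6 : (k : ℝ) ≤ q := by exact_mod_cast (Finset.mem_range.1 hk).le
          refine (abs_sub _ _).trans ?_
          linarith
      _ = q * (4 * q) := by rw [Finset.sum_const, Finset.card_range, nsmul_eq_mul]
  have h4 : |q * (∑ j ∈ Finset.range n, f (T^[j] x))| ≤
      (∑ j ∈ Finset.range n, |∑ k ∈ Finset.range q, f (T^[k] (T^[j] x))|) + q * (4 * q) := by
    have e : q * (∑ j ∈ Finset.range n, f (T^[j] x)) =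
        (∑ j ∈ Finset.range n, ∑ k ∈ Finset.range q, f (T^[k] (T^[j] x))) -
        ∑ k ∈ Finset.range q, ((∑ i ∈ Finset.range k, f (T^[i] (T^[n] x))) -
          ∑ i ∈ Finset.range k, f (T^[i] x)) := by
      rw [h2]
      ring
    rw [e]
    refine (abs_sub _ _).trans (add_le_add (Finset.abs_sum_le_sum_abs _ _) h3)
  rw [abs_mul, abs_of_pos hq0] at h4
  have h5 : |∑ j ∈ Finset.range n, f (T^[j] x)| ≤
      ((∑ j ∈ Finset.range n, |∑ k ∈ Finset.range q, f (T^[k] (T^[j] x))|) + q * (4 * q)) / q := by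
    rw [le_div_iff₀ hq0, mul_comm]
    exact h4
  refine h5.trans (le_of_eq ?_)
  rw [add_div, Finset.sum_div]
  congr 1
  field_simp

/-- the deviations of the Birkhoff sums, at all times `n ≥ n0` -/
theorem dev_max {a : ℝ} (ha : 1 ≤ |a|) {F : ℝ → ℝ} (Fc : Continuous F) (Fp : Periodic F 1)
    {M : ℝ} (hM : 0 < M) (FM : ∀ x, |F x| ≤ M) {n0 : ℕ} {η : ℝ} (hη : 0 < η)
    (hn0 : 8 * M ≤ η * n0) :
    ∃ U : Set T2, MeasurableSet U ∧
      volume.real U ≤ 2 * √C1 * (M / η) * √(16 * (M / (η * n0)) + |a| ^ (-(1 / 3) : ℝ)) ∧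
      ∀ p, p ∉ U → ∀ n : ℕ, n0 ≤ n → |∑ k ∈ Finset.range n,
        (Fp.lift (((S a)^[k] p).1) - ∫ x in (0:ℝ)..1, F x)| ≤ n * η := by
  have hC1 := C1_pos
  have ha0 : 0 < |a| := by linarith
  set g : UnitAddCircle → ℝ := fun x => Fp.lift x / M with hg
  have hgc : Continuous g := (lift_cont Fp Fc).div_const M
  have hg1 : ∀ x, |g x| ≤ 1 := by
    intro x
    induction x using QuotientAddGroup.induction_on with
    | H x =>
      show |F x / M| ≤ 1
      rw [abs_div, abs_of_pos hM, div_le_one hM]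
      exact FM x
  have hgint : ∫ x, g x = (∫ x in (0:ℝ)..1, F x) / M := by
    rw [← UnitAddCircle.intervalIntegral_preimage 0, zero_add, ← intervalIntegral.integral_div]
    rfl
  set c := ∫ x, g x with hc
  have hc1 : |c| ≤ 1 := by
    have := norm_integral_le_of_norm_le_const (μ := (volume : Measure UnitAddCircle)) (f := g)
      (C := 1) (Filter.Eventually.of_forall fun x => by rw [norm_eq_abs]; exact hg1 x)
    simpa using this
  set f : T2 → ℝ := fun q => g q.1 - c with hf
  have hfc : Continuous f := (hgc.comp continuous_fst).sub continuous_const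
  have hf2 : ∀ q, |f q| ≤ 2 := by
    intro q
    have h1 := abs_le.1 (hg1 q.1)
    have h2 := abs_le.1 hc1
    show |g q.1 - c| ≤ 2
    rw [abs_le]
    constructor <;> linarith
  have hηM : 0 < η / M := by positivity
  set y : ℝ := η / M * n0 / 8 with hy
  have hy1 : 1 ≤ y := by
    have e : y = η * n0 / (8 * M) := by
      rw [hy]
      field_simp
    rw [e, le_div_iff₀ (by positivity)]
    linarith
  set q : ℕ := ⌊y⌋₊ with hq
  have hq1 : 1 ≤ q := (Nat.one_le_floor_iff y).2 hy1
  have hq0 : (0 : ℝ) < q := by exact_mod_cast hq1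
  have hqy : (q : ℝ) ≤ y := Nat.floor_le (by linarith)
  have hyq : y ≤ 2 * q := by
    have h1 := Nat.lt_floor_add_one y
    have h2 : (1 : ℝ) ≤ q := by exact_mod_cast hq1
    rw [← hq] at h1
    linarith
  set G : T2 → ℝ := fun x => |∑ k ∈ Finset.range q, f ((S a)^[k] x)| / q with hG
  have hGc : Continuous G := by
    apply Continuous.div_const
    apply Continuous.abs
    exact continuous_finsetSum _ fun k _ => hfc.comp ((S_cont a).iterate k)
  have hG0 : ∀ x, 0 ≤ G x := fun x => by
    rw [hG]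
    positivity
  have hGint : ∫ x, |G x| ≤ √(C1 * (1 / q + |a| ^ (-(1 / 3) : ℝ))) := by
    have e : ∀ x, |G x| = G x := fun x => abs_of_nonneg (hG0 x)
    simp_rw [e]
    have hsq : (∫ x, G x) ^ 2 ≤ ∫ x, G x ^ 2 := by
      exact sq_int_le hGc
    have h2 : ∫ x, G x ^ 2 ≤ C1 * (1 / q + |a| ^ (-(1 / 3) : ℝ)) := by
      have h3 := lln ha hgc hg1 hq1
      have e2 : ∀ x, G x ^ 2 = (1 / (q : ℝ) ^ 2) *
          (∑ k ∈ Finset.range q, (g (((S a)^[k] x).1) - c)) ^ 2 := by
        intro x
        rw [hG]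
        simp only
        rw [div_pow, sq_abs]
        ring
      simp_rw [e2]
      rw [integral_const_mul]
      calc 1 / (q : ℝ) ^ 2 * ∫ x : T2, (∑ k ∈ Finset.range q, (g (((S a)^[k] x).1) - c)) ^ 2
          ≤ 1 / (q : ℝ) ^ 2 * ((q : ℝ) ^ 2 * (C1 * (1 / q + |a| ^ (-(1 / 3) : ℝ)))) :=
            mul_le_mul_of_nonneg_left h3 (by positivity)
        _ = _ := by field_simp
    exact Real.le_sqrt_of_sq_le (hsq.trans h2)
  have hmax := maximal (S_mp a) hGc.measurable (integrable_cont hGc)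
    (c := η / M / 2) (by positivity)
  set U : Set T2 := {x | ∃ k, η / M / 2 < ergAv (S a) G k x} with hU
  have mU : MeasurableSet U := by
    have e : U = ⋃ k : ℕ, {x | η / M / 2 < ergAv (S a) G k x} := by
      ext x
      simp only [hU, Set.mem_ofPred_eq, Set.mem_iUnion]
    rw [e]
    refine MeasurableSet.iUnion fun k => ?_
    exact measurableSet_lt measurable_const
      (V11103.ergAv_meas (S_mp a).measurable hGc.measurable k)
  refine ⟨U, mU, ?_, ?_⟩
  · rw [measureReal_def]
    refine (ENNReal.toReal_le_of_le_ofReal (by positivity) hmax).trans ?_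
    have h1 : (∫ x, |G x|) / (η / M / 2) ≤
        √(C1 * (1 / q + |a| ^ (-(1 / 3) : ℝ))) / (η / M / 2) :=
      div_le_div_of_nonneg_right hGint (by positivity)
    refine h1.trans ?_
    rw [Real.sqrt_mul hC1.le]
    have h2 : 1 / (q : ℝ) ≤ 16 * (M / (η * n0)) := by
      have hn0' : (0 : ℝ) < n0 := by
        by_contra hcon
        rw [not_lt] at hcon
        nlinarith
      have e : 16 * (M / (η * n0)) = 2 / y := by
        rw [hy]
        field_simp
        norm_num
      rw [e, div_le_div_iff₀ hq0 (by linarith)]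
      linarith
    have h3 : √(1 / (q : ℝ) + |a| ^ (-(1 / 3) : ℝ)) ≤
        √(16 * (M / (η * n0)) + |a| ^ (-(1 / 3) : ℝ)) := Real.sqrt_le_sqrt (by linarith)
    calc √C1 * √(1 / (q : ℝ) + |a| ^ (-(1 / 3) : ℝ)) / (η / M / 2)
        ≤ √C1 * √(16 * (M / (η * n0)) + |a| ^ (-(1 / 3) : ℝ)) / (η / M / 2) := by
          apply div_le_div_of_nonneg_right _ (by positivity)
          exact mul_le_mul_of_nonneg_left h3 (Real.sqrt_nonneg _)
      _ = _ := by
          field_simp
  · intro p hp n hn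
    have h1 := block (S a) hf2 hq1 n p
    have h2 : ergAv (S a) G n p ≤ η / M / 2 := by
      by_contra hcon
      rw [not_le] at hcon
      exact hp ⟨n, hcon⟩
    have hn0' : (0 : ℝ) < n0 := by
      by_contra hcon
      rw [not_lt] at hcon
      nlinarith
    have hnn : (n0 : ℝ) ≤ n := by exact_mod_cast hn
    have hn' : (0 : ℝ) < n := by linarith
    unfold V11103.ergAv at h2
    rw [one_div, ← div_eq_inv_mul, div_le_iff₀ hn'] at h2
    have h3 : (∑ j ∈ Finset.range n, |∑ k ∈ Finset.range q, f ((S a)^[k] ((S a)^[j] p))| / q) ≤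
        η / M / 2 * n := h2
    have h4 : 4 * (q : ℝ) ≤ η / M / 2 * n := by
      have e : η / M / 2 * n0 = 4 * y := by
        rw [hy]
        ring
      have h5 : η / M / 2 * n0 ≤ η / M / 2 * n := mul_le_mul_of_nonneg_left hnn (by positivity)
      linarith
    have h5 : |∑ k ∈ Finset.range n, f ((S a)^[k] p)| ≤ η / M * n := by linarith
    have e : ∑ k ∈ Finset.range n,
        (Fp.lift (((S a)^[k] p).1) - ∫ x in (0:ℝ)..1, F x) =
          M * ∑ k ∈ Finset.range n, f ((S a)^[k] p) := by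
      rw [Finset.mul_sum]
      refine Finset.sum_congr rfl fun k _ => ?_
      rw [hf]
      simp only
      rw [hgint, hg]
      field_simp
    rw [e, abs_mul, abs_of_pos hM]
    calc M * |∑ k ∈ Finset.range n, f ((S a)^[k] p)| ≤ M * (η / M * n) :=
          mul_le_mul_of_nonneg_left h5 hM.le
      _ = n * η := by field_simp

end Pool.Agent.Run7.h425.SM
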