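import Pool.Agent.Run7.h425.SM.Expo

set_option autoImplicit false

/-!
# The finite-time exponents of the standard map
-/

namespace Pool.Agent.Run7.h425.SM

open Real MeasureTheory Function Pool.Agent.TH705.SM
open Pool.Agent.V1152.SMI (cc cc_coe cc_cont cc_le Lper pm pm' pm_hasFDeriv pm_iter_fderiv ff
  ff_cont ff_period ff_bound ff_mean norm_bound K1_nonneg)

/-- the visits to the bad region -/
theorem visits {a K : ℝ} (ha : 1 ≤ |a|) (hK : 1 ≤ K) (n : ℕ) :
    volume.real {p : T2 | ∃ k, k < n ∧ (S a)^[k] p ∈ Bad a K} ≤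
      n * (8 * K * (1 + log |a|) / |a| ^ 2) := by
  have e : {p : T2 | ∃ k, k < n ∧ (S a)^[k] p ∈ Bad a K} =
      ⋃ k ∈ Finset.range n, (S a)^[k] ⁻¹' Bad a K := by
    ext p
    simp only [Set.mem_ofPred_eq, Set.mem_iUnion, Finset.mem_range, Set.mem_preimage, exists_prop]
  rw [e]
  refine (measureReal_biUnion_finset_le _ _).trans ?_
  have h1 : ∀ k ∈ Finset.range n, volume.real ((S a)^[k] ⁻¹' Bad a K) ≤
      8 * K * (1 + log |a|) / |a| ^ 2 := by
    intro k _
    rw [measureReal_def, (iter_mp a k).measure_preimage (Bad_meas a K).nullMeasurableSet]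
    exact Bad_vol ha hK
  refine (Finset.sum_le_sum h1).trans ?_
  rw [Finset.sum_const, Finset.card_range, nsmul_eq_mul]

/-- the deviations of the Birkhoff sums -/
theorem dev_prob {a : ℝ} (ha : 1 ≤ |a|) {F : ℝ → ℝ} (Fc : Continuous F) (Fp : Periodic F 1)
    {M : ℝ} (hM : 0 < M) (FM : ∀ x, |F x| ≤ M) {n : ℕ} (hn : 1 ≤ n) {η : ℝ} (hη : 0 < η) :
    volume.real {q : T2 | n * η ≤ |∑ k ∈ Finset.range n,
      (Fp.lift (((S a)^[k] q).1) - ∫ x in (0:ℝ)..1, F x)|} ≤
      M ^ 2 / η ^ 2 * (C1 * (1 / n + |a| ^ (-(1 / 3) : ℝ))) := by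
  have hn0 : (0 : ℝ) < n := by exact_mod_cast hn
  set g : UnitAddCircle → ℝ := fun x => Fp.lift x / M with hg
  have hgc : Continuous g := (lift_cont Fp Fc).div_const M
  have hg1 : ∀ x, |g x| ≤ 1 := by
    intro x
    induction x using QuotientAddGroup.induction_on with
    | H x =>
      show |F x / M| ≤ 1
      rw [abs_div, abs_of_pos hM, div_le_one hM]
      exact FM x
  have hgint : ∫ x, g x = (∫ x in (0:ℝ)..1, F x) / M := by
    rw [← UnitAddCircle.intervalIntegral_preimage 0, zero_add, ← intervalIntegral.integral_div]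
    rfl
  have h1 := lln ha hgc hg1 hn
  set Sg : T2 → ℝ := fun q => ∑ k ∈ Finset.range n, (g (((S a)^[k] q).1) - ∫ x, g x) with hS
  have hSF : ∀ q, ∑ k ∈ Finset.range n,
      (Fp.lift (((S a)^[k] q).1) - ∫ x in (0:ℝ)..1, F x) = M * Sg q := by
    intro q
    rw [hS]
    simp only
    rw [Finset.mul_sum]
    refine Finset.sum_congr rfl fun k _ => ?_
    rw [hgint, hg]
    field_simp
  have hSc : Continuous Sg := continuous_finsetSum _ fun k _ =>
    (hgc.comp (continuous_fst.comp ((S_cont a).iterate k))).sub continuous_const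
  have h2 := mul_meas_ge_le_integral_of_nonneg (μ := (volume : Measure T2))
    (f := fun q => Sg q ^ 2) (Filter.Eventually.of_forall fun q => sq_nonneg _)
    (integrable_cont (hSc.pow 2)) ((n * η / M) ^ 2)
  have hset : {q : T2 | n * η ≤ |∑ k ∈ Finset.range n,
      (Fp.lift (((S a)^[k] q).1) - ∫ x in (0:ℝ)..1, F x)|} =
      {q | (n * η / M) ^ 2 ≤ Sg q ^ 2} := by
    ext q
    simp only [Set.mem_ofPred_eq]
    rw [hSF q, abs_mul, abs_of_pos hM, ← sq_abs (Sg q), mul_comm M, ← div_le_iff₀ hM]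
    exact (sq_le_sq₀ (by positivity) (abs_nonneg _)).symm
  rw [hset]
  have h3 : (n * η / M) ^ 2 * volume.real {q : T2 | (n * η / M) ^ 2 ≤ Sg q ^ 2} ≤
      (n : ℝ) ^ 2 * (C1 * (1 / n + |a| ^ (-(1 / 3) : ℝ))) := h2.trans h1
  have h4 : 0 < (n * η / M) ^ 2 := by positivity
  rw [mul_comm, ← le_div_iff₀ h4] at h3
  refine h3.trans (le_of_eq ?_)
  field_simp

/-- the visits to the critical strips -/
theorem strip_prob {a : ℝ} (ha : 16 ≤ |a|) {n : ℕ} (hn : 1 ≤ n) {η : ℝ} (hη : 0 < η) :
    volume.real {q : T2 | n * η ≤ ∑ k ∈ Finset.range n, 1 / (1 + cc a (((S a)^[k] q).1) ^ 2)} ≤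
      4 / (|a| * η) := by
  have hn0 : (0 : ℝ) < n := by exact_mod_cast hn
  have ha0 : 0 < |a| := by linarith
  set e : UnitAddCircle → ℝ := fun x => 1 / (1 + cc a x ^ 2) with he
  have hec : Continuous e := continuous_const.div (continuous_const.add ((cc_cont a).pow 2))
    fun x => by positivity
  have he0 : ∀ x, 0 ≤ e x := fun x => by
    rw [he]
    positivity
  have hint : ∫ x, e x ≤ 4 / |a| := by
    rw [← UnitAddCircle.intervalIntegral_preimage 0, zero_add]
    have h3 := ee_int (a := a) (l := 16) le_rfl ha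
    have eec : Continuous (ee a 16) := ee_cont a (by norm_num)
    have h1 : ∫ x in (0:ℝ)..1, e (x : UnitAddCircle) ≤ ∫ x in (0:ℝ)..1, 256 / |a| * ee a 16 x := by
      apply intervalIntegral.integral_mono_on (by norm_num)
      · exact (hec.comp (AddCircle.continuous_mk' 1)).intervalIntegrable _ _
      · exact (continuous_const.mul eec).intervalIntegrable _ _
      intro x _
      show 1 / (1 + cc a (x : UnitAddCircle) ^ 2) ≤ _
      rw [cc_coe]
      unfold ee
      have e : 256 / |a| * (|a| / (L a x ^ 2 + 16 ^ 2)) = 256 / (L a x ^ 2 + 16 ^ 2) := by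
        field_simp
      rw [e, div_le_div_iff₀ (by positivity) (by positivity)]
      nlinarith [sq_nonneg (L a x)]
    rw [intervalIntegral.integral_const_mul] at h1
    refine h1.trans ?_
    calc 256 / |a| * ∫ x in (0:ℝ)..1, ee a 16 x ≤ 256 / |a| * (1 / (4 * 16)) :=
          mul_le_mul_of_nonneg_left h3 (by positivity)
      _ = 4 / |a| := by ring
  have hSc : Continuous fun q : T2 => ∑ k ∈ Finset.range n, e (((S a)^[k] q).1) :=
    continuous_finsetSum _ fun k _ => hec.comp (continuous_fst.comp ((S_cont a).iterate k))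
  have h2 := mul_meas_ge_le_integral_of_nonneg (μ := (volume : Measure T2))
    (f := fun q => ∑ k ∈ Finset.range n, e (((S a)^[k] q).1))
    (Filter.Eventually.of_forall fun q => Finset.sum_nonneg fun k _ => he0 _)
    (integrable_cont hSc) (n * η)
  have h3 : ∫ q : T2, ∑ k ∈ Finset.range n, e (((S a)^[k] q).1) = n * ∫ x, e x := by
    have hi : ∀ k ∈ Finset.range n, Integrable (fun q : T2 => e (((S a)^[k] q).1)) volume :=
      fun k _ => integrable_cont (hec.comp (continuous_fst.comp ((S_cont a).iterate k)))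
    rw [integral_finsetSum _ hi]
    have h4 : ∀ k ∈ Finset.range n, ∫ q : T2, e (((S a)^[k] q).1) = ∫ x, e x := by
      intro k _
      have h5 := int_comp (S_mp a) k (g := fun q : T2 => e q.1)
        (hec.comp continuous_fst).measurable
      rw [h5]
      have h6 := integral_prod_mul (μ := (volume : Measure UnitAddCircle))
        (ν := (volume : Measure UnitAddCircle)) e (fun _ => (1:ℝ))
      simp only [mul_one] at h6
      have h7 : ∫ _ : UnitAddCircle, (1:ℝ) = 1 := by simp
      rw [h7, mul_one] at h6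
      exact h6
    rw [Finset.sum_congr rfl h4, Finset.sum_const, Finset.card_range, nsmul_eq_mul]
  rw [h3] at h2
  have h8 : n * η * volume.real {q : T2 | n * η ≤ ∑ k ∈ Finset.range n, e (((S a)^[k] q).1)} ≤
      n * (4 / |a|) := h2.trans (mul_le_mul_of_nonneg_left hint hn0.le)
  rw [mul_comm, ← le_div_iff₀ (by positivity)] at h8
  refine h8.trans (le_of_eq ?_)
  field_simp

end Pool.Agent.Run7.h425.SM
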